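import Pool.Agent.Lib.MP_305fdd_al.Fr.F.Step
import Pool.Agent.Lib.MP_305fdd_al.F2.Ch.C5

/-!
# MP_305fdd_al, F_r, block FORM: part 5, auxiliary results (existence of `p`-bases, general lattices)
-/

set_option autoImplicit false
set_option linter.unusedSectionVars false

namespace Pool.Agent.FrF

open Pool.Agent.F2Ch Pool.Agent.F2RF
open scoped Classical

/-- a finitely generated field over a perfect field has a finite monomial `p`-basis -/
theorem exists_MB (p : ℕ) [Fact p.Prime] (k K : Type) [Field k] [CharP k p] [PerfectRing k p]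
    [Field K] [Algebra k K] (n : ℕ) (t : Fin n → K) (ht : FracGen k t) :
    ∃ (d : ℕ) (x : Fin d → K) (π : (Fin d → Fin p) → K → K), MB p x π ∧ Algebra.trdeg k K = d := by
  have : CharP K p := charP_of_injective_algebraMap (algebraMap k K).injective p
  obtain ⟨d, b, ρ, htr, hb⟩ := p_B4 p k K n t ht
  obtain ⟨y, ρ', hy, hπ⟩ := p_C5 p_B1 p K d b ρ hb
  exact ⟨d, y, ρ', ⟨hy, hπ⟩, htr⟩

/-- the value of a Laurent polynomial, general lattice -/
noncomputable def evG {E L Λ : Type} [Field E] [Field L] (i : E →+* L) (χ : Λ → L)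
    (P : Λ →₀ E) : L := P.sum fun l a => i a * χ l

/-- `L` is the field of fractions of the group ring `E[Λ]`, embedded by `χ`. -/
structure LauG {E L Λ : Type} [Field E] [Field L] [AddCommGroup Λ] (i : E →+* L) (χ : Λ → L) :
    Prop where
  zero : χ 0 = 1
  add : ∀ l l', χ (l + l') = χ l * χ l'
  inj : ∀ P : Λ →₀ E, evG i χ P = 0 → P = 0
  frac : ∀ z : L, ∃ P Q : Λ →₀ E, evG i χ Q ≠ 0 ∧ z * evG i χ Q = evG i χ P

section
variable {E L Λ : Type} [Field E] [Field L] [AddCommGroup Λ] {i : E →+* L} {χ : Λ → L}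

/-- `χ` as a homomorphism to the units -/
noncomputable def chU (h : LauG i χ) : Multiplicative Λ →* Lˣ :=
  MonoidHom.toHomUnits
    { toFun := fun l => χ l.toAdd
      map_one' := h.zero
      map_mul' := fun a b => h.add a.toAdd b.toAdd }

theorem chU_apply (h : LauG i χ) (l : Λ) : ((chU h (Multiplicative.ofAdd l) : Lˣ) : L) = χ l := rfl

theorem LauG.ne (h : LauG i χ) (l : Λ) : χ l ≠ 0 := by
  rw [← chU_apply h]
  exact Units.ne_zero _

theorem LauG.smul (h : LauG i χ) (n : ℤ) (l : Λ) : χ (n • l) = χ l ^ n := by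
  rw [← chU_apply h, ← chU_apply h, ofAdd_zsmul, map_zpow, Units.val_zpow_eq_zpow_val]

theorem LauG.sum (h : LauG i χ) {ι : Type} (s : Finset ι) (g : ι → Λ) :
    χ (∑ j ∈ s, g j) = ∏ j ∈ s, χ (g j) := by
  induction s using Finset.induction_on with
  | empty => simpa using h.zero
  | insert a s ha ih => rw [Finset.sum_insert ha, Finset.prod_insert ha, h.add, ih]

theorem LauG.mo (h : LauG i χ) {m : ℕ} (b : Module.Basis (Fin m) ℤ Λ) (l : Λ) :
    FrF.mo (fun j => χ (b j)) (b.equivFun l) = χ l := by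
  unfold FrF.mo
  conv_rhs => rw [← b.sum_equivFun l, h.sum]
  exact Finset.prod_congr rfl fun j _ => (h.smul _ _).symm

theorem LauG.ev (h : LauG i χ) {m : ℕ} (b : Module.Basis (Fin m) ℤ Λ) (P : Λ →₀ E) :
    FrF.ev i (fun j => χ (b j)) (P.mapDomain b.equivFun) = evG i χ P := by
  unfold FrF.ev evG
  rw [Finsupp.sum_mapDomain_index (fun l => by rw [map_zero, zero_mul])
    (fun l a a' => by rw [map_add, add_mul])]
  exact Finsupp.sum_congr fun l _ => by rw [h.mo b]

theorem LauG.toLau (h : LauG i χ) {m : ℕ} (b : Module.Basis (Fin m) ℤ Λ) :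
    Lau i (fun j => χ (b j)) := by
  have hinj : Function.Injective b.equivFun := b.equivFun.injective
  have hsurj : ∀ P : (Fin m → ℤ) →₀ E, ∃ Q : Λ →₀ E, Q.mapDomain b.equivFun = P := by
    intro P
    refine ⟨P.mapDomain b.equivFun.symm, ?_⟩
    rw [← Finsupp.mapDomain_comp]
    have h1 : (b.equivFun : Λ → Fin m → ℤ) ∘ b.equivFun.symm = id := by
      funext l
      exact b.equivFun.apply_symm_apply l
    rw [h1, Finsupp.mapDomain_id]
  refine ⟨fun j => h.ne _, fun P hP => ?_, fun z => ?_⟩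
  · obtain ⟨Q, rfl⟩ := hsurj P
    rw [h.ev b] at hP
    rw [h.inj Q hP, Finsupp.mapDomain_zero]
  · obtain ⟨P, Q, hQ, hz⟩ := h.frac z
    exact ⟨P.mapDomain b.equivFun, Q.mapDomain b.equivFun, by rw [h.ev b]; exact hQ,
      by rw [h.ev b, h.ev b]; exact hz⟩

theorem mapDomain_zero_apply {m : ℕ} (b : Module.Basis (Fin m) ℤ Λ) (P : Λ →₀ E) :
    P.mapDomain b.equivFun 0 = P 0 := by
  have h1 : (0 : Fin m → ℤ) = b.equivFun 0 := by rw [map_zero]
  rw [h1, Finsupp.mapDomain_apply b.equivFun.injective]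

theorem evG_zero : evG i χ (0 : Λ →₀ E) = 0 := by
  unfold evG
  rw [Finsupp.sum_zero_index]

theorem evG_add (P Q : Λ →₀ E) : evG i χ (P + Q) = evG i χ P + evG i χ Q := by
  unfold evG
  rw [Finsupp.sum_add_index']
  · intro l
    rw [map_zero, zero_mul]
  · intro l a b
    rw [map_add, add_mul]

theorem evG_single (l : Λ) (a : E) : evG i χ (Finsupp.single l a) = i a * χ l := by
  unfold evG
  rw [Finsupp.sum_single_index (by rw [map_zero, zero_mul])]

theorem evG_smul (c : E) (P : Λ →₀ E) : evG i χ (c • P) = i c * evG i χ P := by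
  unfold evG
  rw [Finsupp.sum_smul_index (fun l => by rw [map_zero, zero_mul]), Finsupp.mul_sum]
  refine Finsupp.sum_congr fun l _ => ?_
  rw [map_mul, mul_assoc]

theorem evG_sum {ι : Type} (s : Finset ι) (P : ι → Λ →₀ E) :
    evG i χ (∑ j ∈ s, P j) = ∑ j ∈ s, evG i χ (P j) := by
  induction s using Finset.induction_on with
  | empty => simp [evG_zero]
  | insert a s ha ih => rw [Finset.sum_insert ha, Finset.sum_insert ha, evG_add, ih]

theorem LauG.inj' (h : LauG i χ) {P Q : Λ →₀ E} (hPQ : evG i χ P = evG i χ Q) : P = Q := by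
  rw [← sub_eq_zero]
  apply h.inj
  have h1 := evG_add (i := i) (χ := χ) (P - Q) Q
  rw [sub_add_cancel, hPQ] at h1
  exact left_eq_add.1 (by rw [add_comm]; exact h1)

/-- multiplication by a monomial is a shift -/
theorem evG_shift (h : LauG i χ) (n : Λ) (P : Λ →₀ E) :
    evG i χ (P.mapDomain fun l => l + n) = evG i χ P * χ n := by
  unfold evG
  rw [Finsupp.sum_mapDomain_index (fun l => by rw [map_zero, zero_mul])
    (fun l a a' => by rw [map_add, add_mul]), Finsupp.sum_mul]
  exact Finsupp.sum_congr fun l _ => by rw [h.add, mul_assoc]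

end

end Pool.Agent.FrF
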