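import Pool.Agent.Lib.MP_305fdd_al.Fr.D.Bal
import Pool.Agent.Lib.MP_305fdd_al.F2.RF.Main
import Pool.Agent.Lib.MP_305fdd_al.F2.Ch.B4

/-!
# MP_305fdd_al, F_r, block FORM: part 1, a balanced valuation ring gives elements on which no power of
a Cartier operator vanishes
-/

set_option autoImplicit false
set_option linter.unusedSectionVars false

namespace Pool.Agent.FrF

open Pool.Agent.F2Ch Pool.Agent.F2RF Pool.Agent.FrD
open scoped Classical

/-- `B` has property `Q`: for every Cartier operator `φ` of `K` and every `c ≠ 0` in `B` there is `b` in `B`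
such that no power of `φ` kills `b * c`. -/
def PropQ (p : ℕ) [NeZero p] {K : Type} [Field K] (B : Subring K) : Prop :=
  ∀ φ : K → K, LogTy p φ → ∀ c ∈ B, c ≠ 0 → ∃ b ∈ B, ∀ e : ℕ, φ^[e] (b * c) ≠ 0

/-- The value of a sum of elements of different values. -/
theorem sum_dist {K Γ₀ ι : Type} [Field K] [LinearOrderedCommGroupWithZero Γ₀] (v : Valuation K Γ₀)
    (s : Finset ι) (g : ι → K)
    (hd : ∀ i ∈ s, ∀ j ∈ s, i ≠ j → g i ≠ 0 → g j ≠ 0 → v (g i) ≠ v (g j))
    (hne : ∃ i ∈ s, g i ≠ 0) :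
    ∃ j ∈ s, g j ≠ 0 ∧ v (∑ i ∈ s, g i) = v (g j) ∧ ∀ i ∈ s, v (g i) ≤ v (g j) := by
  obtain ⟨i0, hi0, hi0'⟩ := hne
  obtain ⟨j, hj, hmax⟩ := Finset.exists_max_image s (fun i => v (g i)) ⟨i0, hi0⟩
  have hgj : g j ≠ 0 := by
    intro h0
    have h1 := hmax i0 hi0
    simp only [h0, map_zero, le_zero_iff, map_eq_zero] at h1
    exact hi0' h1
  refine ⟨j, hj, hgj, ?_, hmax⟩
  refine Valuation.map_sum_eq_of_lt v hj fun i hi => ?_
  rw [Finset.mem_sdiff, Finset.mem_singleton] at hi
  refine lt_of_le_of_ne (hmax i hi.1) ?_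
  by_cases h0 : g i = 0
  · rw [h0, map_zero]
    intro h
    exact hgj ((map_eq_zero v).1 h.symm)
  · exact hd i hi.1 j hj hi.2 h0 hgj

section
variable {k K : Type} [Field k] [Field K] [Algebra k K]

/-- the value in the group of nonzero values, written additively -/
noncomputable def vl (O : ValuationSubring K) (x : Kˣ) : Additive (O.ValueGroup)ˣ :=
  Additive.ofMul (Units.map (O.valuation : K →* O.ValueGroup) x)

theorem vl_mul (O : ValuationSubring K) (x y : Kˣ) : vl O (x * y) = vl O x + vl O y := by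
  simp [vl]

theorem vl_inj (O : ValuationSubring K) {x y : Kˣ} :
    vl O x = vl O y ↔ O.valuation (x : K) = O.valuation (y : K) := by
  unfold vl
  rw [Additive.ofMul.injective.eq_iff, Units.ext_iff]
  rfl

theorem vl_one (O : ValuationSubring K) : vl O 1 = 0 := by
  simp [vl]

theorem vl_surj (O : ValuationSubring K) (γ : Additive (O.ValueGroup)ˣ) : ∃ x : Kˣ, vl O x = γ := by
  obtain ⟨y, hy⟩ := O.valuation_surjective ((Additive.toMul γ : (O.ValueGroup)ˣ) : O.ValueGroup)
  have hy0 : y ≠ 0 := by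
    rintro rfl
    rw [map_zero] at hy
    exact (Additive.toMul γ).ne_zero hy.symm
  refine ⟨Units.mk0 y hy0, ?_⟩
  unfold vl
  rw [← ofMul_toMul γ]
  congr 1
  apply Units.ext
  exact hy

theorem vl_zpow (O : ValuationSubring K) (x : Kˣ) (n : ℤ) : vl O (x ^ n) = n • vl O x := by
  simp [vl]

theorem vl_pow (O : ValuationSubring K) (x : Kˣ) (n : ℕ) : vl O (x ^ n) = n • vl O x := by
  simp [vl]

theorem vl_prod (O : ValuationSubring K) {ι : Type} (s : Finset ι) (x : ι → Kˣ) :
    vl O (∏ i ∈ s, x i) = ∑ i ∈ s, vl O (x i) := by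
  simp [vl]

/-- the span of the values of the `f i` -/
noncomputable def fsp (O : ValuationSubring K) {d : ℕ} (f : Fin d → Kˣ) :
    Submodule ℤ (Additive (O.ValueGroup)ˣ) :=
  Submodule.span ℤ (Set.range fun i => vl O (f i))

theorem mem_fsp (O : ValuationSubring K) {d : ℕ} (f : Fin d → Kˣ) (γ : Additive (O.ValueGroup)ˣ) :
    γ ∈ fsp O f ↔ ∃ a : Fin d → ℤ, γ = vl O (∏ i, f i ^ a i) := by
  unfold fsp
  rw [Submodule.mem_span_range_iff_exists_fun]
  simp only [vl_prod, vl_zpow]
  constructor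
  · rintro ⟨c, hc⟩
    exact ⟨c, hc.symm⟩
  · rintro ⟨c, hc⟩
    exact ⟨c, hc.symm⟩

/-- the values of polynomials in `f` are values of monomials -/
theorem vl_aeval {O : ValuationSubring K} (htriv : ∀ c : k, algebraMap k K c ∈ O) {d : ℕ}
    (f : Fin d → Kˣ)
    (hind : ∀ a : Fin d → ℤ, vl O (∏ i, f i ^ a i) = 0 → a = 0)
    (P : MvPolynomial (Fin d) k) (hP : MvPolynomial.aeval (fun i => (f i : K)) P ≠ 0) :
    vl O (Units.mk0 _ hP) ∈ fsp O f := by
  have hc1 : ∀ c : k, c ≠ 0 → O.valuation (algebraMap k K c) = 1 := by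
    intro c hc
    have h1 := (O.valuation_le_one_iff _).2 (htriv c)
    have h2 := (O.valuation_le_one_iff _).2 (htriv c⁻¹)
    rw [map_inv₀, map_inv₀] at h2
    refine le_antisymm h1 ?_
    have h3 : O.valuation (algebraMap k K c) ≠ 0 := by
      rw [Ne, map_eq_zero, map_eq_zero]
      exact hc
    exact (inv_le_one₀ (zero_lt_iff.2 h3)).1 h2
  have hterm : ∀ m : Fin d →₀ ℕ, ∀ c : k, c ≠ 0 →
      O.valuation (MvPolynomial.aeval (fun i => (f i : K)) (MvPolynomial.monomial m c)) =
        O.valuation ((∏ i, f i ^ ((m i : ℕ) : ℤ) : Kˣ) : K) := by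
    intro m c hc
    rw [MvPolynomial.aeval_monomial, map_mul, hc1 c hc, one_mul]
    congr 1
    rw [Finsupp.prod_fintype _ _ (fun i => pow_zero _)]
    simp
  have hval := sum_dist O.valuation P.support
    (fun m => MvPolynomial.aeval (fun i => (f i : K)) (MvPolynomial.monomial m (P.coeff m)))
    (by
      intro m hm m' hm' hne _ _ heq
      rw [hterm m _ (MvPolynomial.mem_support_iff.1 hm),
        hterm m' _ (MvPolynomial.mem_support_iff.1 hm'), ← vl_inj] at heq
      apply hne
      have h1 : vl O (∏ i, f i ^ (((m i : ℕ) : ℤ) - ((m' i : ℕ) : ℤ))) = 0 := by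
        rw [vl_prod] at heq ⊢
        rw [vl_prod] at heq
        simp only [vl_zpow] at heq ⊢
        simp only [sub_smul, Finset.sum_sub_distrib]
        exact sub_eq_zero.2 heq
      have h2 := hind _ h1
      ext i
      have h3 := congrFun h2 i
      simp only [Pi.zero_apply] at h3
      omega)
    (by
      have hP0 : P ≠ 0 := by
        rintro rfl
        exact hP (map_zero _)
      obtain ⟨m, hm⟩ := MvPolynomial.support_nonempty.2 hP0
      refine ⟨m, hm, ?_⟩
      intro h0
      have h1 := hterm m _ (MvPolynomial.mem_support_iff.1 hm)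
      rw [h0, map_zero] at h1
      exact (Units.ne_zero _) ((map_eq_zero _).1 h1.symm))
  obtain ⟨m, hm, _, hv, _⟩ := hval
  rw [hterm m _ (MvPolynomial.mem_support_iff.1 hm)] at hv
  have hsum : ∑ m ∈ P.support,
      MvPolynomial.aeval (fun i => (f i : K)) (MvPolynomial.monomial m (P.coeff m)) =
      MvPolynomial.aeval (fun i => (f i : K)) P := by
    rw [← map_sum, MvPolynomial.support_sum_monomial_coeff]
  rw [hsum] at hv
  rw [mem_fsp]
  exact ⟨fun i => ((m i : ℕ) : ℤ), (vl_inj O).2 hv⟩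

/-- the values of the elements of `k(f)` are values of monomials -/
theorem vl_adjoin {O : ValuationSubring K} (htriv : ∀ c : k, algebraMap k K c ∈ O) {d : ℕ}
    (f : Fin d → Kˣ) (hind : ∀ a : Fin d → ℤ, vl O (∏ i, f i ^ a i) = 0 → a = 0)
    (x : Kˣ) (hx : (x : K) ∈ IntermediateField.adjoin k (Set.range fun i => (f i : K))) :
    vl O x ∈ fsp O f := by
  obtain ⟨P, Q, hPQ⟩ := (IntermediateField.mem_adjoin_range_iff k _ _).1 hx
  have hx0 : (x : K) ≠ 0 := x.ne_zero
  have hP : MvPolynomial.aeval (fun i => (f i : K)) P ≠ 0 := by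
    intro h
    rw [h, zero_div] at hPQ
    exact hx0 hPQ
  have hQ : MvPolynomial.aeval (fun i => (f i : K)) Q ≠ 0 := by
    intro h
    rw [h, div_zero] at hPQ
    exact hx0 hPQ
  have h1 := vl_aeval htriv f hind P hP
  have h2 := vl_aeval htriv f hind Q hQ
  have h3 : x * Units.mk0 _ hQ = Units.mk0 _ hP := by
    apply Units.ext
    rw [Units.val_mul, Units.val_mk0, Units.val_mk0, hPQ, div_mul_cancel₀ _ hQ]
  have h4 : vl O x = vl O (Units.mk0 _ hP) - vl O (Units.mk0 _ hQ) := by
    rw [← h3, vl_mul, add_sub_cancel_right]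
  rw [h4]
  exact Submodule.sub_mem _ h1 h2

/-- `K` is finite over `k(f)` -/
theorem fd_adjoin (B : Subalgebra k K) (hB : B.FG)
    (hfrac : ∀ x : K, ∃ a ∈ B, ∃ b ∈ B, b ≠ 0 ∧ x * b = a) {d : ℕ} (f : Fin d → K)
    (htb : IsTranscendenceBasis k f) :
    FiniteDimensional (IntermediateField.adjoin k (Set.range f)) K := by
  obtain ⟨S, hS⟩ := hB
  have hKA : Algebra.IsAlgebraic (IntermediateField.adjoin k (Set.range f)) K :=
    htb.isAlgebraic_field
  have h1 : FiniteDimensional (IntermediateField.adjoin k (Set.range f))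
      (IntermediateField.adjoin (IntermediateField.adjoin k (Set.range f)) (S : Set K)) :=
    IntermediateField.finiteDimensional_adjoin fun z _ =>
      (Algebra.IsAlgebraic.isAlgebraic z).isIntegral
  have h2 : IntermediateField.adjoin (IntermediateField.adjoin k (Set.range f)) (S : Set K) = ⊤ := by
    rw [eq_top_iff]
    intro z _
    obtain ⟨a, ha, b, hb, hb0, hab⟩ := hfrac z
    have h4 : B ≤ (IntermediateField.adjoin (IntermediateField.adjoin k (Set.range f))
        (S : Set K)).toSubalgebra.restrictScalars k := by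
      rw [← hS, Algebra.adjoin_le_iff]
      exact IntermediateField.subset_adjoin _ _
    have h5 : z = a / b := by
      rw [← hab]
      field_simp
    rw [h5]
    exact div_mem (h4 ha) (h4 hb)
  rw [h2] at h1
  exact (IntermediateField.topEquiv
    (F := IntermediateField.adjoin k (Set.range f)) (E := K)).toLinearEquiv.finiteDimensional

/-- the values of `f` have finite index -/
theorem fin_quot {O : ValuationSubring K} (htriv : ∀ c : k, algebraMap k K c ∈ O) {d : ℕ}
    (f : Fin d → Kˣ) (hind : ∀ a : Fin d → ℤ, vl O (∏ i, f i ^ a i) = 0 → a = 0)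
    (hfd : FiniteDimensional (IntermediateField.adjoin k (Set.range fun i => (f i : K))) K) :
    Finite (Additive (O.ValueGroup)ˣ ⧸ fsp O f) := by
  by_contra hinf
  rw [not_finite_iff_infinite] at hinf
  set K0 := IntermediateField.adjoin k (Set.range fun i => (f i : K)) with hK0
  let e := Infinite.natEmbedding (Additive (O.ValueGroup)ˣ ⧸ fsp O f)
  have hrep : ∀ n : ℕ, ∃ x : Kˣ, (fsp O f).mkQ (vl O x) = e n := by
    intro n
    obtain ⟨γ, hγ⟩ := Submodule.mkQ_surjective _ (e n)
    obtain ⟨x, hx⟩ := vl_surj O γ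
    exact ⟨x, by rw [hx, hγ]⟩
  choose x hx using hrep
  have hli : LinearIndependent K0 (fun i : Fin (Module.finrank K0 K + 1) => (x (i : ℕ) : K)) := by
    rw [Fintype.linearIndependent_iff]
    intro g hg
    by_contra hne
    push Not at hne
    obtain ⟨i0, hi0⟩ := hne
    obtain ⟨j, _, hj0, hv, _⟩ := sum_dist O.valuation Finset.univ
      (fun i : Fin (Module.finrank K0 K + 1) => (g i : K) * (x (i : ℕ) : K))
      (by
        intro i _ j _ hij hi hj heq
        have hgi : (g i : K) ≠ 0 := left_ne_zero_of_mul hi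
        have hgj : (g j : K) ≠ 0 := left_ne_zero_of_mul hj
        have h1 := vl_adjoin htriv f hind (Units.mk0 _ hgi) (g i).2
        have h2 := vl_adjoin htriv f hind (Units.mk0 _ hgj) (g j).2
        have h3 : vl O (Units.mk0 _ hgi * x i) = vl O (Units.mk0 _ hgj * x j) := by
          rw [vl_inj]
          exact heq
        rw [vl_mul, vl_mul] at h3
        have h4 : e (i : ℕ) = e (j : ℕ) := by
          rw [← hx, ← hx, ← sub_eq_zero, ← map_sub, Submodule.mkQ_apply,
            Submodule.Quotient.mk_eq_zero]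
          have : vl O (x i) - vl O (x j) = vl O (Units.mk0 _ hgj) - vl O (Units.mk0 _ hgi) := by
            rw [sub_eq_sub_iff_add_eq_add, add_comm, h3]
          rw [this]
          exact Submodule.sub_mem _ h2 h1
        exact hij (Fin.ext (e.injective h4)))
      ⟨i0, Finset.mem_univ _, mul_ne_zero (by
        intro h
        exact hi0 (Subtype.ext h)) (x _).ne_zero⟩
    have hg' : ∑ i : Fin (Module.finrank K0 K + 1), (g i : K) * (x (i : ℕ) : K) = 0 := hg
    rw [hg', map_zero] at hv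
    exact hj0 ((map_eq_zero _).1 hv.symm)
  have := hli.fintype_card_le_finrank
  rw [Fintype.card_fin] at this
  omega

theorem ind_units {B : Subalgebra k K} {O : ValuationSubring K} {d : ℕ} {f : Fin d → K}
    (h : Bal k B O f) (a : Fin d → ℤ)
    (ha : vl O (∏ i, (Units.mk0 (f i) (h.ne i)) ^ a i) = 0) : a = 0 := by
  rw [← vl_one, vl_inj] at ha
  apply h.indep a
  rw [Units.val_one, map_one] at ha
  rw [← ha]
  congr 1
  simp

theorem fracGen_of_fg (B : Subalgebra k K) (hB : B.FG)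
    (hfrac : ∀ x : K, ∃ a ∈ B, ∃ b ∈ B, b ≠ 0 ∧ x * b = a) :
    ∃ (n : ℕ) (t : Fin n → K), FracGen k t := by
  obtain ⟨S, hS⟩ := hB
  let e := S.equivFin
  refine ⟨S.card, fun i => ((e.symm i : S) : K), ?_⟩
  have hr : Set.range (fun i => ((e.symm i : S) : K)) = (S : Set K) := by
    ext z
    constructor
    · rintro ⟨i, rfl⟩
      exact (e.symm i).2
    · intro hz
      exact ⟨e ⟨z, hz⟩, by simp⟩
  have hmem : ∀ z ∈ B, ∃ P : MvPolynomial (Fin S.card) k,
      MvPolynomial.aeval (fun i => ((e.symm i : S) : K)) P = z := by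
    intro z hz
    rw [← hS, ← hr, Algebra.adjoin_range_eq_range_aeval] at hz
    exact hz
  intro x
  obtain ⟨a, ha, b, hb, hb0, hab⟩ := hfrac x
  obtain ⟨P, hP⟩ := hmem a ha
  obtain ⟨Q, hQ⟩ := hmem b hb
  exact ⟨P, Q, by rw [hQ]; exact hb0, by rw [hP, hQ]; exact hab⟩

theorem monY_ne {p d : ℕ} (x : Fin d → Kˣ) (a : Fin d → Fin p) :
    monY (p := p) (fun i => (x i : K)) a ≠ 0 := by
  unfold monY
  rw [Finset.prod_ne_zero_iff]
  intro i _
  exact pow_ne_zero _ (x i).ne_zero

/-- the value of a term -/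
theorem vl_term {O : ValuationSubring K} {p r : ℕ} (b : Module.Basis (Fin r) ℤ
    (Additive (O.ValueGroup)ˣ)) (x : Fin r → Kˣ) (hx : ∀ i, vl O (x i) = b i)
    (a : Fin r → Fin p) (c : K) (hc : c ^ p * monY (p := p) (fun i => (x i : K)) a ≠ 0)
    (hc0 : c ≠ 0) (i : Fin r) :
    b.repr (vl O (Units.mk0 _ hc)) i = (p : ℤ) * b.repr (vl O (Units.mk0 c hc0)) i + (a i : ℕ) := by
  have h1 : Units.mk0 _ hc = (Units.mk0 c hc0) ^ p * ∏ i, x i ^ (a i : ℕ) := by
    apply Units.ext
    simp [monY]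
  rw [h1, vl_mul, vl_pow, vl_prod]
  simp only [vl_pow, hx]
  rw [map_add, map_nsmul, map_sum]
  simp only [map_nsmul, Module.Basis.repr_self, Finsupp.add_apply, Finsupp.smul_apply,
    Finsupp.finsetSum_apply, Finsupp.single_apply]
  simp

/-- terms with different exponents have different values -/
theorem term_dist {O : ValuationSubring K} {p r : ℕ} [Fact p.Prime] (b : Module.Basis (Fin r) ℤ
    (Additive (O.ValueGroup)ˣ)) (x : Fin r → Kˣ) (hx : ∀ i, vl O (x i) = b i)
    (a a' : Fin r → Fin p) (c c' : K) (haa : a ≠ a')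
    (hc : c ^ p * monY (p := p) (fun i => (x i : K)) a ≠ 0)
    (hc' : c' ^ p * monY (p := p) (fun i => (x i : K)) a' ≠ 0) :
    O.valuation (c ^ p * monY (p := p) (fun i => (x i : K)) a) ≠
      O.valuation (c' ^ p * monY (p := p) (fun i => (x i : K)) a') := by
  have hp : p ≠ 0 := (Fact.out : p.Prime).ne_zero
  intro heq
  have hc0 : c ≠ 0 := by
    rintro rfl
    exact hc (by rw [zero_pow hp, zero_mul])
  have hc0' : c' ≠ 0 := by
    rintro rfl
    exact hc' (by rw [zero_pow hp, zero_mul])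
  have h1 : vl O (Units.mk0 _ hc) = vl O (Units.mk0 _ hc') := by
    rw [vl_inj]
    exact heq
  apply haa
  funext i
  have h2 := vl_term b x hx a c hc hc0 i
  have h3 := vl_term b x hx a' c' hc' hc0' i
  rw [h1, h3] at h2
  have h4 : ((a i : ℕ) : ℤ) ≡ ((a' i : ℕ) : ℤ) [ZMOD (p : ℤ)] := by
    rw [Int.modEq_iff_dvd]
    refine ⟨b.repr (vl O (Units.mk0 c hc0)) i - b.repr (vl O (Units.mk0 c' hc0')) i, ?_⟩
    rw [mul_sub]
    linarith
  rw [Int.natCast_modEq_iff] at h4
  have h5 := Nat.ModEq.eq_of_lt_of_lt h4 (a i).2 (a' i).2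
  exact Fin.ext h5

/-- A monomial `p`-basis adapted to a valuation ring of maximal rational rank. -/
theorem exists_adapted (p : ℕ) [Fact p.Prime] [CharP k p] [PerfectRing k p] [CharP K p]
    (B : Subalgebra k K) (hB : B.FG)
    (hfrac : ∀ x : K, ∃ a ∈ B, ∃ b ∈ B, b ≠ 0 ∧ x * b = a)
    {O : ValuationSubring K} {d : ℕ} {f : Fin d → K} (h : Bal k B O f) :
    ∃ (x : Fin d → K) (π : (Fin d → Fin p) → K → K), MB p x π ∧
      ∀ g : K, O.valuation g = 1 → O.valuation (π j0 g) = 1 := by
  have hp : p ≠ 0 := (Fact.out : p.Prime).ne_zero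
  have hind := ind_units h
  have hfd : FiniteDimensional (IntermediateField.adjoin k (Set.range fun i =>
      ((Units.mk0 (f i) (h.ne i) : Kˣ) : K))) K := fd_adjoin B hB hfrac f h.tb
  have hq := fin_quot h.triv (fun i => Units.mk0 (f i) (h.ne i)) hind hfd
  have hfs : Module.Finite ℤ (fsp O fun i => Units.mk0 (f i) (h.ne i)) :=
    Module.Finite.span_of_finite ℤ (Set.finite_range _)
  have hfM : Module.Finite ℤ (Additive (O.ValueGroup)ˣ) :=
    Module.Finite.of_submodule_quotient (fsp O fun i => Units.mk0 (f i) (h.ne i))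
  have hfr : Module.Free ℤ (Additive (O.ValueGroup)ˣ) := Module.free_of_finite_type_torsion_free'
  obtain ⟨r, ⟨b⟩, hr⟩ : ∃ r : ℕ, Nonempty (Module.Basis (Fin r) ℤ (Additive (O.ValueGroup)ˣ)) ∧
      Module.finrank ℤ (Additive (O.ValueGroup)ˣ) = r :=
    ⟨_, ⟨Module.finBasis ℤ (Additive (O.ValueGroup)ˣ)⟩, rfl⟩
  -- the reference basis
  obtain ⟨n, t, ht⟩ := fracGen_of_fg B hB hfrac
  obtain ⟨d', e, ρ, htr, hPB⟩ := p_B4 p k K n t ht
  have hdd : d' = d := by
    have h1 := h.tb.cardinalMk_eq_trdeg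
    rw [Cardinal.mk_fin, htr] at h1
    exact_mod_cast h1.symm
  subst hdd
  have hdr : d' ≤ r := by
    have hli : LinearIndependent ℤ (fun i => vl O (Units.mk0 (f i) (h.ne i))) := by
      rw [Fintype.linearIndependent_iff]
      intro g hg
      have h1 := hind g (by
        rw [vl_prod]
        simp only [vl_zpow]
        exact hg)
      intro i
      rw [h1]
      rfl
    have h1 := hli.fintype_card_le_finrank
    rwa [Fintype.card_fin, hr] at h1
  choose x hx using fun i => vl_surj O (b i)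
  have hindep : ∀ a : (Fin r → Fin p) → K,
      ∑ j, a j ^ p * monY (p := p) (fun i => (x i : K)) j = 0 → a = 0 := by
    intro a ha
    by_contra hne
    obtain ⟨j0, hj0⟩ := Function.ne_iff.1 hne
    obtain ⟨j, _, hj, hv, _⟩ := sum_dist O.valuation Finset.univ
      (fun j => a j ^ p * monY (p := p) (fun i => (x i : K)) j)
      (fun j _ j' _ hjj hj hj' => term_dist b x hx j j' _ _ hjj hj hj')
      ⟨j0, Finset.mem_univ _, mul_ne_zero (pow_ne_zero _ hj0) (monY_ne x j0)⟩
    rw [ha, map_zero] at hv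
    exact hj ((map_eq_zero _).1 hv.symm)
  have hB1 := p_B1 p K (Fin (p ^ d')) e ρ hPB (Fin r → Fin p)
    (fun j => monY (p := p) (fun i => (x i : K)) j) hindep
  have hrd : r ≤ d' := by
    have h1 := hB1.1
    rw [Fintype.card_fun, Fintype.card_fin, Fintype.card_fin, Fintype.card_fin] at h1
    exact (Nat.pow_le_pow_iff_right (Fact.out : p.Prime).one_lt).1 h1
  obtain rfl : r = d' := le_antisymm hrd hdr
  obtain ⟨π, hπ⟩ := hB1.2 (by
    rw [Fintype.card_fun, Fintype.card_fin, Fintype.card_fin, Fintype.card_fin])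
  refine ⟨fun i => (x i : K), π, ⟨fun i => (x i).ne_zero, hπ⟩, ?_⟩
  intro g hg
  have hg0 : g ≠ 0 := by
    rintro rfl
    rw [map_zero] at hg
    exact zero_ne_one hg
  have hrepr := hπ.repr g
  obtain ⟨j1, hj1⟩ : ∃ j, π j g ≠ 0 := by
    by_contra hne
    push Not at hne
    apply hg0
    rw [← hrepr]
    refine Finset.sum_eq_zero fun j _ => ?_
    rw [hne j, zero_pow hp, zero_mul]
  obtain ⟨j, _, hj, hv, _⟩ := sum_dist O.valuation Finset.univ
    (fun j => π j g ^ p * monY (p := p) (fun i => (x i : K)) j)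
    (fun j _ j' _ hjj hj hj' => term_dist b x hx j j' _ _ hjj hj hj')
    ⟨j1, Finset.mem_univ _, mul_ne_zero (pow_ne_zero _ hj1) (monY_ne x j1)⟩
  rw [hrepr, hg] at hv
  have hc0 : π j g ≠ 0 := by
    intro h0
    apply hj
    simp only [h0, zero_pow hp, zero_mul]
  have h1 : vl O (Units.mk0 _ hj) = 0 := by
    rw [← vl_one, vl_inj, Units.val_mk0, ← hv, Units.val_one, map_one]
  have h2 : ∀ i, (p : ℤ) * b.repr (vl O (Units.mk0 _ hc0)) i + ((j i : ℕ) : ℤ) = 0 := by
    intro i
    have h3 := vl_term b x hx j (π j g) hj hc0 i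
    rw [h1, map_zero, Finsupp.zero_apply] at h3
    exact h3.symm
  have h3 : ∀ i, (j i : ℕ) = 0 := by
    intro i
    have h4 : (p : ℤ) ∣ ((j i : ℕ) : ℤ) := ⟨-b.repr (vl O (Units.mk0 _ hc0)) i, by
      have := h2 i
      linarith⟩
    rw [Int.natCast_dvd_natCast] at h4
    exact Nat.eq_zero_of_dvd_of_lt h4 (j i).2
  have hjj : j = j0 := by
    funext i
    exact Fin.ext (h3 i)
  have h4 : vl O (Units.mk0 _ hc0) = 0 := by
    apply b.repr.injective
    rw [map_zero]
    ext i
    have h5 := h2 i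
    rw [h3 i, Nat.cast_zero, add_zero] at h5
    rcases mul_eq_zero.1 h5 with h6 | h6
    · exact absurd h6 (by exact_mod_cast hp)
    · simpa using h6
  rw [← vl_one, vl_inj, Units.val_mk0, Units.val_one, map_one, hjj] at h4
  exact h4

theorem iter_conj {K : Type} [Field K] (φ ψ : K → K) (g : K) (hg : g ≠ 0)
    (h : ∀ f, φ f = g⁻¹ * ψ (g * f)) (e : ℕ) (f : K) : φ^[e] f = g⁻¹ * ψ^[e] (g * f) := by
  induction e with
  | zero => simp [hg]
  | succ e ih =>
    rw [Function.iterate_succ_apply', Function.iterate_succ_apply', ih, h, mul_inv_cancel_left₀ hg]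

/-- BASE: a balanced valuation ring gives property `Q`. -/
theorem base (p : ℕ) [Fact p.Prime] [CharP k p] [PerfectRing k p] [CharP K p]
    (B : Subalgebra k K) (hB : B.FG)
    (hfrac : ∀ x : K, ∃ a ∈ B, ∃ b ∈ B, b ≠ 0 ∧ x * b = a)
    {O : ValuationSubring K} {d : ℕ} {f : Fin d → K} (h : Bal k B O f) :
    PropQ p B.toSubring := by
  intro φ hφ c hc hc0
  obtain ⟨x, π, hMB, hunit⟩ := exists_adapted p B hB hfrac h
  obtain ⟨g, hg, hgφ⟩ := w4 p K φ hφ d x π hMB
  obtain ⟨a1, ha1, a2, ha2, ha20, haa⟩ := hfrac (g * c)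
  have ha10 : a1 ≠ 0 := by
    rw [← haa]
    exact mul_ne_zero (mul_ne_zero hg hc0) ha20
  obtain ⟨a', ha', hv⟩ := h.bal a1 ha1 ha10
  refine ⟨a2 * a', B.mul_mem ha2 ha', fun e => ?_⟩
  rw [iter_conj φ (π j0) g hg hgφ e]
  refine mul_ne_zero (inv_ne_zero hg) ?_
  have h1 : g * (a2 * a' * c) = a1 * a' := by
    rw [← haa]
    ring
  rw [h1]
  have h2 : ∀ e : ℕ, O.valuation ((π j0)^[e] (a1 * a')) = 1 := by
    intro e
    induction e with
    | zero => exact hv
    | succ e ih =>
      rw [Function.iterate_succ_apply']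
      exact hunit _ ih
  intro h0
  have h3 := h2 e
  rw [h0, map_zero] at h3
  exact zero_ne_one h3

end

end Pool.Agent.FrF
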