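import Pool.Agent.Lib.MP_305fdd_al.Fr.F.Lat

/-!
# MP_305fdd_al, F_r, block FORM: part 6, Lemma R (Galois form of the step lemma)
-/

set_option autoImplicit false
set_option linter.unusedSectionVars false

namespace Pool.Agent.FrF

open Pool.Agent.F2Ch Pool.Agent.F2RF
open scoped Classical

/-- if `L` is generated as a field by `K` and elements algebraic over `K` then it is generated as a ring -/
theorem closure_top {E K L : Type} [Field E] [Field K] [Field L] (iE : E →+* L) (iK : K →+* L)
    (halg : ∀ a : E, ∃ P : Polynomial K, P ≠ 0 ∧ P.eval₂ iK (iE a) = 0)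
    (hgen : ∀ M : Subfield L, (∀ a, iE a ∈ M) → (∀ z, iK z ∈ M) → ∀ z, z ∈ M) (z : L) :
    z ∈ Subring.closure (Set.range iE ∪ Set.range iK) := by
  let _ : Algebra K L := iK.toAlgebra
  have h1 : (IntermediateField.adjoin K (Set.range iE)).toSubalgebra =
      Algebra.adjoin K (Set.range iE) := by
    apply IntermediateField.adjoin_toSubalgebra_of_isAlgebraic
    rintro _ ⟨a, rfl⟩
    obtain ⟨P, hP, hP0⟩ := halg a
    exact ⟨P, hP, hP0⟩
  have h2 : z ∈ IntermediateField.adjoin K (Set.range iE) :=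
    hgen (IntermediateField.adjoin K (Set.range iE)).toSubfield
      (fun a => IntermediateField.subset_adjoin K _ ⟨a, rfl⟩)
      (fun y => (IntermediateField.adjoin K (Set.range iE)).algebraMap_mem y) z
  have h3 : z ∈ Algebra.adjoin K (Set.range iE) := by
    rw [← h1]
    exact h2
  have h4 : z ∈ (Algebra.adjoin K (Set.range iE)).toSubring := h3
  rw [Algebra.adjoin_eq_ring_closure] at h4
  have h5 : Set.range iE ∪ Set.range iK = Set.range (algebraMap K L) ∪ Set.range iE := by
    rw [Set.union_comm]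
    rfl
  rw [h5]
  exact h4

/-- elements of a ring generated by two subrings are sums of products -/
theorem closure_prod {E K L : Type} [Field E] [Field K] [Field L] (iE : E →+* L) (iK : K →+* L)
    (C : L → Prop) (hadd : ∀ x y, C x → C y → C (x + y)) (hneg : ∀ x, C x → C (-x)) (h0 : C 0)
    (hmul : ∀ a z, C (iE a * iK z)) (z : L)
    (hz : z ∈ Subring.closure (Set.range iE ∪ Set.range iK)) : C z := by
  rw [Subring.mem_closure_iff] at hz
  have hm : ∀ y ∈ Submonoid.closure (Set.range iE ∪ Set.range iK), ∃ a b, y = iE a * iK b := by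
    intro y hy
    induction hy using Submonoid.closure_induction with
    | mem x hx =>
      rcases hx with ⟨a, rfl⟩ | ⟨b, rfl⟩
      · exact ⟨a, 1, by rw [map_one, mul_one]⟩
      · exact ⟨1, b, by rw [map_one, one_mul]⟩
    | one => exact ⟨1, 1, by rw [map_one, map_one, mul_one]⟩
    | mul x y _ _ hx hy =>
      obtain ⟨a, b, rfl⟩ := hx
      obtain ⟨c, d, rfl⟩ := hy
      exact ⟨a * c, b * d, by rw [map_mul, map_mul]; ring⟩
  induction hz using AddSubgroup.closure_induction with
  | mem x hx =>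
    obtain ⟨a, b, rfl⟩ := hm x hx
    exact hmul a b
  | zero => exact h0
  | add x y _ _ hx hy => exact hadd x y hx hy
  | neg x _ hx => exact hneg x hx

/-- a separable extension `E` of `F` is generated by `F` and the squares -/
theorem closure_sq {F E : Type} [Field F] [Field E] [Algebra F E] [CharP F 2]
    [Algebra.IsSeparable F E] (z : E) :
    z ∈ Subring.closure (Set.range (algebraMap F E) ∪ Set.range (fun y : E => y ^ 2)) := by
  have : ExpChar F 2 := ExpChar.prime Nat.prime_two
  have h1 := IntermediateField.adjoin_simple_eq_adjoin_pow_expChar_pow_of_isSeparable F E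
    (Algebra.IsSeparable.isSeparable F z) 2 1
  rw [pow_one] at h1
  have h2 : z ∈ IntermediateField.adjoin F {z ^ 2} := by
    rw [← h1]
    exact IntermediateField.mem_adjoin_simple_self F z
  have h3 : (IntermediateField.adjoin F {z ^ 2}).toSubalgebra = Algebra.adjoin F {z ^ 2} := by
    apply IntermediateField.adjoin_toSubalgebra_of_isAlgebraic
    intro x _
    exact Algebra.IsAlgebraic.isAlgebraic x
  have h4 : z ∈ Algebra.adjoin F {z ^ 2} := by
    rw [← h3]
    exact h2
  have h5 : z ∈ (Algebra.adjoin F {z ^ 2}).toSubring := h4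
  rw [Algebra.adjoin_eq_ring_closure] at h5
  refine Subring.closure_mono ?_ h5
  apply Set.union_subset_union_right
  rintro _ rfl
  exact ⟨z, rfl⟩

/-- LEMMA R, one-step form.  `E / F` finite Galois, `L` = fractions of the group ring `E[Λ]`; every
automorphism of `E / F` extends to an automorphism of `L / K` acting monomially on `χ`; the
elements of `BK` are Laurent polynomials and the `E`-span of `BK` contains all monomials. -/
theorem lemR {F E K L Λ : Type} [Field F] [Field E] [Field K] [Field L]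
    [CharP F 2] [CharP E 2] [CharP K 2] [CharP L 2] [Algebra F E] [FiniteDimensional F E]
    [IsGalois F E] [AddCommGroup Λ] [Module.Free ℤ Λ] [Module.Finite ℤ Λ]
    (iE : E →+* L) (iFK : F →+* K) (iK : K →+* L)
    (hcomm : ∀ a, iE (algebraMap F E a) = iK (iFK a))
    (χ : Λ → L) (hL : LauG iE χ)
    (hw : ∀ w : E ≃ₐ[F] E, ∃ u : L ≃+* L, (∀ a, u (iE a) = iE (w a)) ∧ (∀ z, u (iK z) = iK z) ∧
      ∀ l, ∃ (c : E) (l' : Λ), u (χ l) = iE c * χ l')
    (hMB : ∃ (d : ℕ) (x : Fin d → F) (π : (Fin d → Fin 2) → F → F), MB 2 x π)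
    (BF : Subring F) (BK : Subring K) (hBF : ∀ b ∈ BF, iFK b ∈ BK)
    (hfracF : ∀ x : F, ∃ a ∈ BF, ∃ b ∈ BF, b ≠ 0 ∧ x * b = a)
    (hfracK : ∀ x : K, ∃ a ∈ BK, ∃ b ∈ BK, b ≠ 0 ∧ x * b = a)
    (hlau : ∀ b ∈ BK, ∃ P, evG iE χ P = iK b)
    (hspan : ∀ l, ∃ (n : ℕ) (e : Fin n → E) (b : Fin n → K), (∀ j, b j ∈ BK) ∧
      χ l = ∑ j, iE (e j) * iK (b j))
    (hQ : PropQ 2 BF) : PropQ 2 BK := by
  -- `L` is generated by `E` and `K`
  have hcl : ∀ z : L, z ∈ Subring.closure (Set.range iE ∪ Set.range iK) := by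
    intro z
    apply closure_top iE iK
    · intro a
      obtain ⟨P, hP, hP0⟩ := Algebra.IsAlgebraic.isAlgebraic (R := F) a
      refine ⟨P.map iFK, (Polynomial.map_ne_zero_iff iFK.injective).2 hP, ?_⟩
      rw [Polynomial.eval₂_map]
      have h1 : iK.comp iFK = iE.comp (algebraMap F E) := by
        ext x
        exact (hcomm x).symm
      rw [h1, ← Polynomial.hom_eval₂]
      have h2 : Polynomial.eval₂ (algebraMap F E) a P = 0 := hP0
      rw [h2, map_zero]
    · intro M hME hMK z
      have hχ : ∀ l, χ l ∈ M := by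
        intro l
        obtain ⟨n, e, b, _, hb⟩ := hspan l
        rw [hb]
        exact sum_mem fun j _ => mul_mem (hME _) (hMK _)
      have hev : ∀ P : Λ →₀ E, evG iE χ P ∈ M := by
        intro P
        exact sum_mem fun l _ => mul_mem (hME _) (hχ _)
      obtain ⟨P, Q, hQ0, hz⟩ := hL.frac z
      have h1 : z = evG iE χ P / evG iE χ Q := by
        rw [← hz]
        field_simp
      rw [h1]
      exact div_mem (hev P) (hev Q)
  choose u huE huK huχ using hw
  obtain ⟨m, ⟨b⟩⟩ : ∃ m : ℕ, Nonempty (Module.Basis (Fin m) ℤ Λ) :=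
    ⟨_, ⟨Module.finBasis ℤ Λ⟩⟩
  -- the set of automorphisms
  set W : Set (L ≃+* L) := {v | (∀ z, v (iK z) = iK z) ∧ ∃ w : E ≃ₐ[F] E, ∀ a, v (iE a) = iE (w a)}
    with hWdef
  have huW : ∀ w, u w ∈ W := fun w => ⟨huK w, w, huE w⟩
  have huniq : ∀ v ∈ W, ∃ w, v = u w := by
    rintro v ⟨hvK, w, hvE⟩
    refine ⟨w, ?_⟩
    ext z
    have h1 : Set.EqOn (v : L →+* L) (u w : L →+* L) (Set.range iE ∪ Set.range iK) := by
      rintro _ (⟨a, rfl⟩ | ⟨y, rfl⟩)
      · show v (iE a) = u w (iE a)
        rw [hvE, huE]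
      · show v (iK y) = u w (iK y)
        rw [hvK, huK]
    exact RingHom.eqOn_set_closure h1 (hcl z)
  have hfixE : ∀ a : E, (∀ w : E ≃ₐ[F] E, w a = a) → ∃ f, algebraMap F E f = a := by
    intro a ha
    have h1 := (IsGalois.mem_bot_iff_fixed a).2 ha
    rw [IntermediateField.mem_bot] at h1
    exact h1
  -- trace
  obtain ⟨θ, hθ⟩ := Algebra.trace_surjective F E 1
  have htr : ∀ z : L, ∀ a : E, ∃ y, ∑ w : E ≃ₐ[F] E, u w (z * iE a) = iK y := by
    intro z
    refine closure_prod iE iK (fun z => ∀ a : E, ∃ y, ∑ w : E ≃ₐ[F] E, u w (z * iE a) = iK y)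
      ?_ ?_ ?_ ?_ z (hcl z)
    · intro x y hx hy a
      obtain ⟨x', hx'⟩ := hx a
      obtain ⟨y', hy'⟩ := hy a
      refine ⟨x' + y', ?_⟩
      rw [map_add, ← hx', ← hy', ← Finset.sum_add_distrib]
      refine Finset.sum_congr rfl fun w _ => ?_
      rw [add_mul, map_add]
    · intro x hx a
      obtain ⟨x', hx'⟩ := hx a
      refine ⟨-x', ?_⟩
      rw [map_neg, ← hx', ← Finset.sum_neg_distrib]
      refine Finset.sum_congr rfl fun w _ => ?_
      rw [neg_mul, map_neg]
    · intro a
      refine ⟨0, ?_⟩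
      rw [map_zero]
      refine Finset.sum_eq_zero fun w _ => ?_
      rw [zero_mul, map_zero]
    · intro c y a
      refine ⟨y * iFK (Algebra.trace F E (c * a)), ?_⟩
      rw [map_mul, ← hcomm, trace_eq_sum_automorphisms, map_sum, Finset.mul_sum]
      refine Finset.sum_congr rfl fun w _ => ?_
      rw [map_mul, map_mul, huE, huK, huE, map_mul, map_mul]
      ring
  have hW2 : ∀ z, (∀ w ∈ W, w z = z) → ∃ y, iK y = z := by
    intro z hz
    obtain ⟨y, hy⟩ := htr z θ
    refine ⟨y, ?_⟩
    rw [← hy]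
    have h1 : ∀ w : E ≃ₐ[F] E, u w (z * iE θ) = z * iE (w θ) := by
      intro w
      rw [map_mul, huE, hz _ (huW w)]
    rw [Finset.sum_congr rfl fun w _ => h1 w, ← Finset.mul_sum, ← map_sum,
      ← trace_eq_sum_automorphisms, hθ, map_one, map_one, mul_one]
  refine step (algebraMap F E) iE iFK iK hcomm (hL.toLau b) W ?_ ?_ hW2 ?_ ?_ ?_ ?_ ?_ hMB BF BK
    hBF hfracF hfracK ?_ hQ
  · rintro v ⟨hvK, w, hvE⟩
    refine ⟨fun z => ?_, w.symm, fun a => ?_⟩
    · rw [RingEquiv.symm_apply_eq, hvK]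
    · rw [RingEquiv.symm_apply_eq, hvE, AlgEquiv.apply_symm_apply]
  · exact fun v hv => hv.1
  · rintro v ⟨_, w, hvE⟩ a
    exact ⟨w a, hvE a⟩
  · intro v hv j
    obtain ⟨w, rfl⟩ := huniq v hv
    obtain ⟨c, l', hc⟩ := huχ w (b j)
    exact ⟨c, b.equivFun l', by rw [hc, hL.mo b]⟩
  · intro a y hay
    apply hfixE
    intro w
    apply iE.injective
    rw [← huE, hay, huK]
  · intro z
    have h1 : Subring.closure (Set.range iE ∪ Set.range iK) ≤
        Subring.closure (Set.range iK ∪ Set.range (fun y : L => y ^ 2)) := by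
      rw [Subring.closure_le]
      rintro _ (⟨a, rfl⟩ | ⟨y, rfl⟩)
      · have h2 := closure_sq (F := F) a
        have h3 : iE a ∈ (Subring.closure (Set.range (algebraMap F E) ∪
            Set.range (fun y : E => y ^ 2))).map iE := ⟨a, h2, rfl⟩
        rw [RingHom.map_closure] at h3
        refine Subring.closure_mono ?_ h3
        rintro _ ⟨_, ⟨f, rfl⟩ | ⟨y, rfl⟩, rfl⟩
        · left
          exact ⟨iFK f, (hcomm f).symm⟩
        · right
          exact ⟨iE y, (map_pow iE y 2).symm⟩
      · exact Subring.subset_closure (Or.inl ⟨y, rfl⟩)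
    exact h1 (hcl z)
  · exact fun z => closure_sq (F := F) z
  · -- constant terms
    intro c hc hc0
    obtain ⟨P, hP⟩ := hlau c hc
    have hP0 : P ≠ 0 := by
      rintro rfl
      rw [evG_zero] at hP
      exact hc0 (iK.injective (by rw [← hP, map_zero]))
    obtain ⟨l, hl⟩ := Finsupp.ne_iff.1 hP0
    obtain ⟨n, e, d, hd, hχ⟩ := hspan (-l)
    choose R hR using fun j => hlau (d j * c) (BK.mul_mem (hd j) hc)
    have h1 : evG iE χ (P.mapDomain fun n => n + -l) = evG iE χ (∑ j, e j • R j) := by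
      rw [evG_shift hL, hP, hχ, evG_sum, Finset.mul_sum]
      refine Finset.sum_congr rfl fun j _ => ?_
      rw [evG_smul, hR, map_mul]
      ring
    have h2 := hL.inj' h1
    have h3 : (P.mapDomain fun n => n + -l) 0 = P l := by
      have h4 : (0 : Λ) = (fun n => n + -l) l := by simp
      rw [h4, Finsupp.mapDomain_apply (fun x y hxy => by simpa using hxy)]
    rw [h2, Finsupp.finsetSum_apply] at h3
    obtain ⟨j, _, hj⟩ : ∃ j ∈ Finset.univ, (e j • R j) 0 ≠ 0 := by
      apply Finset.exists_ne_zero_of_sum_ne_zero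
      rw [h3]
      exact hl
    refine ⟨d j, hd j, (R j).mapDomain b.equivFun, ?_, ?_⟩
    · rw [hL.ev b, hR]
    · rw [mapDomain_zero_apply]
      intro h0
      apply hj
      rw [Finsupp.smul_apply, h0, smul_zero]

end Pool.Agent.FrF
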