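import Pool.Agent.Lib.MP_305fdd_al.F2.RF.Main

/-!
# MP_305fdd_al, F_r, block FORM: part 2, `p`-bases and separable extensions
-/

set_option autoImplicit false
set_option linter.unusedSectionVars false

namespace Pool.Agent.FrF

open Pool.Agent.F2Ch Pool.Agent.F2RF
open scoped Classical

section
variable {p : ℕ} [Fact p.Prime] {K L : Type} [Field K] [Field L] [CharP K p] [CharP L p]

theorem monY_map (i : K →+* L) {d : ℕ} (t : Fin d → K) (a : Fin d → Fin p) :
    monY (p := p) (fun j => i (t j)) a = i (monY (p := p) t a) := by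
  unfold monY
  rw [map_prod]
  simp

/-- the set of the combinations `∑ c_a ^ p * t ^ a` -/
def spn (p : ℕ) {L : Type} [Field L] {d : ℕ} (t : Fin d → L) : Set L :=
  {z | ∃ c : (Fin d → Fin p) → L, ∑ a, c a ^ p * monY (p := p) t a = z}

theorem spn_zero {d : ℕ} (t : Fin d → L) : (0 : L) ∈ spn p t :=
  ⟨fun _ => 0, by simp [zero_pow (Fact.out : p.Prime).ne_zero]⟩

theorem spn_add {d : ℕ} (t : Fin d → L) {x y : L} (hx : x ∈ spn p t) (hy : y ∈ spn p t) :
    x + y ∈ spn p t := by
  obtain ⟨c, rfl⟩ := hx
  obtain ⟨c', rfl⟩ := hy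
  refine ⟨fun a => c a + c' a, ?_⟩
  rw [← Finset.sum_add_distrib]
  refine Finset.sum_congr rfl fun a _ => ?_
  rw [add_pow_char, add_mul]

theorem spn_smul {d : ℕ} (t : Fin d → L) (e : L) {x : L} (hx : x ∈ spn p t) :
    e ^ p * x ∈ spn p t := by
  obtain ⟨c, rfl⟩ := hx
  refine ⟨fun a => e * c a, ?_⟩
  rw [Finset.mul_sum]
  refine Finset.sum_congr rfl fun a _ => ?_
  rw [mul_pow, mul_assoc]

theorem spn_sum {d : ℕ} (t : Fin d → L) {ι : Type} (s : Finset ι) (g : ι → L)
    (h : ∀ i ∈ s, g i ∈ spn p t) : ∑ i ∈ s, g i ∈ spn p t := by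
  induction s using Finset.induction_on with
  | empty => simpa using spn_zero t
  | insert i s hi ih =>
    rw [Finset.sum_insert hi]
    exact spn_add t (h i (Finset.mem_insert_self i s))
      (ih fun j hj => h j (Finset.mem_insert_of_mem hj))

theorem spn_mon {d : ℕ} (t : Fin d → L) (a : Fin d → Fin p) : monY (p := p) t a ∈ spn p t := by
  refine ⟨fun b => if b = a then 1 else 0, ?_⟩
  rw [Finset.sum_eq_single a]
  · simp
  · intro b _ hb
    simp [hb, zero_pow (Fact.out : p.Prime).ne_zero]
  · intro h
    exact absurd (Finset.mem_univ _) h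

theorem spn_neg {d : ℕ} (t : Fin d → L) {x : L} (hx : x ∈ spn p t) : -x ∈ spn p t := by
  obtain ⟨c, rfl⟩ := hx
  refine ⟨fun a => -c a, ?_⟩
  rw [← Finset.sum_neg_distrib]
  refine Finset.sum_congr rfl fun a _ => ?_
  rw [← neg_mul]
  congr 1
  have h1 := add_pow_char (p := p) (c a) (-c a)
  rw [add_neg_cancel, zero_pow (Fact.out : p.Prime).ne_zero] at h1
  exact (neg_eq_of_add_eq_zero_right h1.symm).symm

theorem spn_mul {d : ℕ} (t : Fin d → L) {x y : L} (hx : x ∈ spn p t) (hy : y ∈ spn p t) :
    x * y ∈ spn p t := by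
  obtain ⟨c, rfl⟩ := hx
  obtain ⟨c', rfl⟩ := hy
  rw [Finset.sum_mul_sum]
  refine spn_sum t _ _ fun a _ => spn_sum t _ _ fun b _ => ?_
  rw [show c a ^ p * monY (p := p) t a * (c' b ^ p * monY (p := p) t b) =
    (c a * c' b) ^ p * (monY (p := p) t a * monY (p := p) t b) by rw [mul_pow]; ring, w1a_mm]
  exact spn_smul t _ (spn_smul t _ (spn_mon t _))

theorem spn_pow {d : ℕ} (t : Fin d → L) (y : L) : y ^ p ∈ spn p t := by
  have h := spn_smul t y (spn_mon (p := p) t j0)
  have h1 : monY (p := p) t j0 = 1 := by
    unfold monY j0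
    simp
  rwa [h1, mul_one] at h

/-- `spn p t` as a subring -/
def spnR {d : ℕ} (t : Fin d → L) : Subring L where
  carrier := spn p t
  mul_mem' := spn_mul t
  one_mem' := by
    have := spn_pow (p := p) t 1
    rwa [one_pow] at this
  add_mem' := spn_add t
  zero_mem' := spn_zero t
  neg_mem' := spn_neg t

/-- a `p`-basis from spanning and independence -/
theorem mb_of {d : ℕ} (t : Fin d → L) (hne : ∀ i, t i ≠ 0) (hspan : ∀ z : L, z ∈ spn p t)
    (hind : ∀ a : (Fin d → Fin p) → L, ∑ j, a j ^ p * monY (p := p) t j = 0 → a = 0) :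
    ∃ π : (Fin d → Fin p) → L → L, MB p t π := by
  choose c hc using hspan
  refine ⟨fun a z => c z a, hne, fun f => hc f, fun a i => ?_⟩
  have h1 := hc (∑ j, a j ^ p * monY (p := p) t j)
  have h2 : ∑ j, (c (∑ j, a j ^ p * monY (p := p) t j) j - a j) ^ p * monY (p := p) t j = 0 := by
    rw [← sub_eq_zero, ← Finset.sum_sub_distrib] at h1
    rw [← h1]
    refine Finset.sum_congr rfl fun j _ => ?_
    rw [sub_pow_char, sub_mul]
  have h3 := congrFun (hind _ h2) i
  exact sub_eq_zero.1 h3

/-- A `p`-basis of `K` is a `p`-basis of `L` if `K` is the fixed field of a set of automorphisms of `L`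
and `L = K L ^ p`. -/
theorem ext_MB (i : K →+* L) {d : ℕ} (t : Fin d → K) (π : (Fin d → Fin p) → K → K)
    (h : MB p t π) (W : Set (L ≃+* L)) (hW1 : ∀ w ∈ W, ∀ z, w (i z) = i z)
    (hW2 : ∀ z, (∀ w ∈ W, w z = z) → ∃ y, i y = z)
    (hsp : ∀ z, z ∈ Subring.closure (Set.range i ∪ Set.range (fun y : L => y ^ p))) :
    ∃ π' : (Fin d → Fin p) → L → L, MB p (fun j => i (t j)) π' ∧
      ∀ a f, π' a (i f) = i (π a f) := by
  have hp : p ≠ 0 := (Fact.out : p.Prime).ne_zero
  have hspan : ∀ z : L, z ∈ spn p (fun j => i (t j)) := by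
    have h1 : Subring.closure (Set.range i ∪ Set.range (fun y : L => y ^ p)) ≤
        spnR (p := p) (fun j => i (t j)) := by
      rw [Subring.closure_le]
      rintro z (⟨y, rfl⟩ | ⟨y, rfl⟩)
      · refine ⟨fun a => i (π a y), ?_⟩
        conv_rhs => rw [← h.pb.repr y]
        rw [map_sum]
        refine Finset.sum_congr rfl fun a _ => ?_
        rw [monY_map, map_mul, map_pow]
      · exact spn_pow _ y
    exact fun z => h1 (hsp z)
  have hind : ∀ a : (Fin d → Fin p) → L,
      ∑ j, a j ^ p * monY (p := p) (fun j => i (t j)) j = 0 → a = 0 := by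
    -- strong induction on the size of the support
    have key : ∀ n : ℕ, ∀ a : (Fin d → Fin p) → L, (Finset.univ.filter fun j => a j ≠ 0).card ≤ n →
        ∑ j, a j ^ p * monY (p := p) (fun j => i (t j)) j = 0 → a = 0 := by
      intro n
      induction n with
      | zero =>
        intro a hn _
        funext j
        by_contra hj
        have : j ∈ Finset.univ.filter fun j => a j ≠ 0 := by simpa using hj
        rw [Finset.card_eq_zero.1 (Nat.le_zero.1 hn)] at this
        simp at this
      | succ n ih =>
        intro a hn ha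
        by_contra hne
        obtain ⟨j1, hj1⟩ := Function.ne_iff.1 hne
        have hj1' : a j1 ≠ 0 := hj1
        -- normalise
        set b : (Fin d → Fin p) → L := fun j => (a j1)⁻¹ * a j with hb
        clear_value b
        have hb1 : b j1 = 1 := by simp [hb, hj1']
        have hbs : ∑ j, b j ^ p * monY (p := p) (fun j => i (t j)) j = 0 := by
          have : ∑ j, b j ^ p * monY (p := p) (fun j => i (t j)) j =
              ((a j1)⁻¹) ^ p * ∑ j, a j ^ p * monY (p := p) (fun j => i (t j)) j := by
            rw [Finset.mul_sum]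
            refine Finset.sum_congr rfl fun j _ => ?_
            simp only [hb]
            rw [mul_pow, mul_assoc]
          rw [this, ha, mul_zero]
        have hfix : ∀ j, ∀ w ∈ W, w (b j) = b j := by
          intro j w hw
          have h1 : ∑ j, (w (b j) - b j) ^ p * monY (p := p) (fun j => i (t j)) j = 0 := by
            have h2 : ∑ j, (w (b j)) ^ p * monY (p := p) (fun j => i (t j)) j = 0 := by
              have h3 := congrArg w hbs
              rw [map_zero, map_sum] at h3
              rw [← h3]
              refine Finset.sum_congr rfl fun j _ => ?_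
              rw [map_mul, map_pow, monY_map, hW1 w hw]
            rw [← sub_eq_zero.2 (h2.trans hbs.symm), ← Finset.sum_sub_distrib]
            refine Finset.sum_congr rfl fun j _ => ?_
            rw [sub_pow_char, sub_mul]
          have h4 := ih (fun j => w (b j) - b j) (by
            have hsub : (Finset.univ.filter fun j => w (b j) - b j ≠ 0) ⊂
                (Finset.univ.filter fun j => a j ≠ 0) := by
              rw [Finset.ssubset_iff_of_subset]
              · refine ⟨j1, by simpa using hj1', ?_⟩
                simp [hb1]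
              · intro j hj
                rw [Finset.mem_filter] at hj ⊢
                refine ⟨Finset.mem_univ _, fun h0 => hj.2 ?_⟩
                simp [hb, h0]
            have := Finset.card_lt_card hsub
            omega) h1
          exact sub_eq_zero.1 (congrFun h4 j)
        choose y hy using fun j => hW2 (b j) (hfix j)
        have hys : ∑ j, y j ^ p * monY (p := p) t j = 0 := by
          apply i.injective
          rw [map_sum, map_zero, ← hbs]
          refine Finset.sum_congr rfl fun j _ => ?_
          rw [map_mul, map_pow, hy, monY_map]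
        have h5 := h.pb.uniq y j1
        rw [hys, w1a_zero h] at h5
        have h6 := hy j1
        rw [← h5, map_zero, hb1] at h6
        exact zero_ne_one h6
    exact fun a ha => key _ a le_rfl ha
  obtain ⟨π', hπ'⟩ := mb_of (fun j => i (t j))
    (fun j h0 => h.ne j (i.injective (by rw [h0, map_zero]))) hspan hind
  refine ⟨π', hπ', fun a f => ?_⟩
  have h1 : i f = ∑ b, (i (π b f)) ^ p * monY (p := p) (fun j => i (t j)) b := by
    conv_lhs => rw [← h.pb.repr f]
    rw [map_sum]
    refine Finset.sum_congr rfl fun b _ => ?_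
    rw [monY_map, map_mul, map_pow]
  rw [h1, hπ'.pb.uniq (fun b => i (π b f)) a]

end

end Pool.Agent.FrF
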