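import Pool.Agent.Lib.MP_305fdd_al.Fr.F.Ext

/-!
# MP_305fdd_al, F_r, block FORM: part 3, fields of fractions of Laurent polynomial rings
-/

set_option autoImplicit false
set_option linter.unusedSectionVars false

namespace Pool.Agent.FrF

open Pool.Agent.F2Ch Pool.Agent.F2RF
open scoped Classical

/-- the monomial `χ ^ l` -/
def mo {L : Type} [Field L] {m : ℕ} (χ : Fin m → L) (l : Fin m → ℤ) : L := ∏ j, χ j ^ l j

/-- the value of a Laurent polynomial with coefficients in `E` at `χ` -/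
noncomputable def ev {E L : Type} [Field E] [Field L] (i : E →+* L) {m : ℕ} (χ : Fin m → L)
    (P : (Fin m → ℤ) →₀ E) : L := P.sum fun l a => i a * mo χ l

/-- `L` is the field of fractions of the ring of Laurent polynomials in `χ` with coefficients in `E`. -/
structure Lau {E L : Type} [Field E] [Field L] (i : E →+* L) {m : ℕ} (χ : Fin m → L) : Prop where
  ne : ∀ j, χ j ≠ 0
  inj : ∀ P : (Fin m → ℤ) →₀ E, ev i χ P = 0 → P = 0
  frac : ∀ z : L, ∃ P Q : (Fin m → ℤ) →₀ E, ev i χ Q ≠ 0 ∧ z * ev i χ Q = ev i χ P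

section
variable {E L : Type} [Field E] [Field L] (i : E →+* L) {m : ℕ} (χ : Fin m → L)

theorem mo_zero : mo χ 0 = 1 := by
  simp [mo]

theorem mo_ne (h : ∀ j, χ j ≠ 0) (l : Fin m → ℤ) : mo χ l ≠ 0 := by
  unfold mo
  rw [Finset.prod_ne_zero_iff]
  exact fun j _ => zpow_ne_zero _ (h j)

theorem mo_add (h : ∀ j, χ j ≠ 0) (l l' : Fin m → ℤ) : mo χ (l + l') = mo χ l * mo χ l' := by
  unfold mo
  rw [← Finset.prod_mul_distrib]
  exact Finset.prod_congr rfl fun j _ => zpow_add₀ (h j) _ _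

theorem mo_nsmul (n : ℕ) (l : Fin m → ℤ) : mo χ l ^ n = mo χ (fun j => (n : ℤ) * l j) := by
  unfold mo
  rw [← Finset.prod_pow]
  refine Finset.prod_congr rfl fun j _ => ?_
  rw [← zpow_natCast, ← zpow_mul, mul_comm]

theorem ev_single (l : Fin m → ℤ) (a : E) : ev i χ (Finsupp.single l a) = i a * mo χ l := by
  unfold ev
  rw [Finsupp.sum_single_index (by rw [map_zero, zero_mul])]

theorem ev_zero : ev i χ 0 = 0 := by
  unfold ev
  rw [Finsupp.sum_zero_index]

theorem ev_add (P Q : (Fin m → ℤ) →₀ E) : ev i χ (P + Q) = ev i χ P + ev i χ Q := by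
  unfold ev
  rw [Finsupp.sum_add_index']
  · intro l
    rw [map_zero, zero_mul]
  · intro l a b
    rw [map_add, add_mul]

theorem ev_sum {ι : Type} (s : Finset ι) (P : ι → (Fin m → ℤ) →₀ E) :
    ev i χ (∑ j ∈ s, P j) = ∑ j ∈ s, ev i χ (P j) := by
  induction s using Finset.induction_on with
  | empty => simp [ev_zero]
  | insert a s ha ih => rw [Finset.sum_insert ha, Finset.sum_insert ha, ev_add, ih]

theorem ev_neg (P : (Fin m → ℤ) →₀ E) : ev i χ (-P) = - ev i χ P := by
  have h := ev_add i χ P (-P)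
  rw [add_neg_cancel, ev_zero] at h
  exact (neg_eq_of_add_eq_zero_right h.symm).symm

theorem ev_sub (P Q : (Fin m → ℤ) →₀ E) : ev i χ (P - Q) = ev i χ P - ev i χ Q := by
  rw [sub_eq_add_neg, ev_add, ev_neg, sub_eq_add_neg]

theorem ev_smul (c : E) (P : (Fin m → ℤ) →₀ E) : ev i χ (c • P) = i c * ev i χ P := by
  unfold ev
  rw [Finsupp.sum_smul_index (fun l => by rw [map_zero, zero_mul]), Finsupp.mul_sum]
  refine Finsupp.sum_congr fun l _ => ?_
  rw [map_mul, mul_assoc]

variable {i χ}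

theorem Lau.inj' (h : Lau i χ) {P Q : (Fin m → ℤ) →₀ E} (hPQ : ev i χ P = ev i χ Q) : P = Q := by
  rw [← sub_eq_zero]
  apply h.inj
  rw [ev_sub, hPQ, sub_self]

variable (i χ)

/-- the ring of Laurent polynomials -/
def lr (h : ∀ j, χ j ≠ 0) : Subring L where
  carrier := {z | ∃ P, ev i χ P = z}
  zero_mem' := ⟨0, ev_zero i χ⟩
  one_mem' := ⟨Finsupp.single 0 1, by rw [ev_single, map_one, mo_zero, one_mul]⟩
  add_mem' := by
    rintro _ _ ⟨P, rfl⟩ ⟨Q, rfl⟩
    exact ⟨P + Q, ev_add i χ P Q⟩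
  neg_mem' := by
    rintro _ ⟨P, rfl⟩
    exact ⟨-P, ev_neg i χ P⟩
  mul_mem' := by
    rintro _ _ ⟨P, rfl⟩ ⟨Q, rfl⟩
    refine ⟨P.sum fun l a => Q.sum fun l' a' => Finsupp.single (l + l') (a * a'), ?_⟩
    unfold Finsupp.sum
    rw [ev_sum]
    simp only [ev_sum, ev_single, map_mul, mo_add χ h]
    unfold ev Finsupp.sum
    rw [Finset.sum_mul_sum]
    refine Finset.sum_congr rfl fun l _ => Finset.sum_congr rfl fun l' _ => ?_
    ring

theorem mem_lr (h : ∀ j, χ j ≠ 0) (z : L) : z ∈ lr i χ h ↔ ∃ P, ev i χ P = z := Iff.rfl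

end

section
variable {p : ℕ} [Fact p.Prime] {m : ℕ}

/-- `l ↦ p l + a` -/
def sh (p : ℕ) {m : ℕ} (a : Fin m → Fin p) (l : Fin m → ℤ) : Fin m → ℤ :=
  fun j => (p : ℤ) * l j + ((a j : ℕ) : ℤ)

theorem sh_eq {a b : Fin m → Fin p} {l n : Fin m → ℤ} (h : sh p a l = sh p b n) : a = b ∧ l = n := by
  have hp : (p : ℤ) ≠ 0 := by exact_mod_cast (Fact.out : p.Prime).ne_zero
  have h1 : a = b := by
    funext j
    have h2 : (p : ℤ) * l j + ((a j : ℕ) : ℤ) = (p : ℤ) * n j + ((b j : ℕ) : ℤ) := congrFun h j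
    have h4 : ((a j : ℕ) : ℤ) ≡ ((b j : ℕ) : ℤ) [ZMOD (p : ℤ)] := by
      rw [Int.modEq_iff_dvd]
      refine ⟨l j - n j, ?_⟩
      rw [mul_sub]
      linarith
    rw [Int.natCast_modEq_iff] at h4
    exact Fin.ext (Nat.ModEq.eq_of_lt_of_lt h4 (a j).2 (b j).2)
  refine ⟨h1, ?_⟩
  funext j
  have h2 : (p : ℤ) * l j + ((a j : ℕ) : ℤ) = (p : ℤ) * n j + ((b j : ℕ) : ℤ) := congrFun h j
  rw [h1] at h2
  have h3 : (p : ℤ) * l j = (p : ℤ) * n j := by linarith
  exact mul_left_cancel₀ hp h3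

theorem sh_inj (a : Fin m → Fin p) : Function.Injective (sh p a) := fun _ _ h => (sh_eq h).2

theorem sh_surj (n : Fin m → ℤ) : ∃ (a : Fin m → Fin p) (l : Fin m → ℤ), sh p a l = n := by
  have hp : 0 < (p : ℤ) := by exact_mod_cast (Fact.out : p.Prime).pos
  refine ⟨fun j => ⟨(n j % (p : ℤ)).toNat, ?_⟩, fun j => n j / (p : ℤ), ?_⟩
  · have h1 := Int.emod_lt_of_pos (n j) hp
    have h2 := Int.emod_nonneg (n j) hp.ne'
    omega
  · funext j
    unfold sh
    have h2 := Int.emod_nonneg (n j) hp.ne'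
    simp only
    rw [Int.toNat_of_nonneg h2]
    exact Int.mul_ediv_add_emod (n j) p

variable {E L : Type} [Field E] [Field L] [CharP E p] [CharP L p]

theorem ev_pow (i : E →+* L) (χ : Fin m → L) (P : (Fin m → ℤ) →₀ E) :
    ev i χ P ^ p = ∑ l ∈ P.support, i (P l ^ p) * mo χ (fun j => (p : ℤ) * l j) := by
  unfold ev Finsupp.sum
  rw [sum_pow_char]
  refine Finset.sum_congr rfl fun l _ => ?_
  rw [mul_pow, ← map_pow, mo_nsmul]

variable {d : ℕ}

/-- first part of an exponent -/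
def e1 (a : Fin (d + m) → Fin p) : Fin d → Fin p := fun j => a (Fin.castAdd m j)

/-- second part of an exponent -/
def e2 (a : Fin (d + m) → Fin p) : Fin m → Fin p := fun j => a (Fin.natAdd d j)

theorem e12_inj {a b : Fin (d + m) → Fin p} (h1 : e1 a = e1 b) (h2 : e2 a = e2 b) : a = b := by
  funext j
  refine Fin.addCases (fun j => ?_) (fun j => ?_) j
  · exact congrFun h1 j
  · exact congrFun h2 j

theorem e1_append (a : Fin d → Fin p) (b : Fin m → Fin p) :
    e1 (Fin.append a b) = a := by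
  funext j
  simp [e1]

theorem e2_append (a : Fin d → Fin p) (b : Fin m → Fin p) :
    e2 (Fin.append a b) = b := by
  funext j
  simp [e2]

theorem monY_append (i : E →+* L) (x : Fin d → E) (χ : Fin m → L) (a : Fin (d + m) → Fin p) :
    monY (p := p) (Fin.append (fun j => i (x j)) χ) a =
      i (monY (p := p) x (e1 a)) * mo χ (fun j => ((e2 a j : ℕ) : ℤ)) := by
  unfold monY mo
  rw [Fin.prod_univ_add, map_prod]
  congr 1
  · refine Finset.prod_congr rfl fun j _ => ?_
    rw [Fin.append_left, map_pow]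
    rfl
  · refine Finset.prod_congr rfl fun j _ => ?_
    rw [Fin.append_right, zpow_natCast]
    rfl

/-- the Laurent polynomial of `(ev P) ^ p * (x, χ) ^ a` -/
noncomputable def FF (x : Fin d → E) (a : Fin (d + m) → Fin p) (P : (Fin m → ℤ) →₀ E) :
    (Fin m → ℤ) →₀ E :=
  (P.mapRange (fun c => c ^ p * monY (p := p) x (e1 a))
    (by rw [zero_pow (Fact.out : p.Prime).ne_zero, zero_mul])).embDomain ⟨sh p (e2 a), sh_inj _⟩

theorem FF_apply (x : Fin d → E) (a : Fin (d + m) → Fin p) (P : (Fin m → ℤ) →₀ E)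
    (b : Fin m → Fin p) (l : Fin m → ℤ) :
    FF x a P (sh p b l) = if e2 a = b then P l ^ p * monY (p := p) x (e1 a) else 0 := by
  unfold FF
  by_cases h : e2 a = b
  · rw [if_pos h, ← h]
    exact (Finsupp.embDomain_apply_self ⟨sh p (e2 a), sh_inj _⟩ _ l)
  · rw [if_neg h]
    apply Finsupp.embDomain_of_notMem_range
    rintro ⟨n, hn⟩
    exact h (sh_eq hn).1

theorem ev_FF (i : E →+* L) (x : Fin d → E) {χ : Fin m → L} (hχ : ∀ j, χ j ≠ 0)
    (a : Fin (d + m) → Fin p) (P : (Fin m → ℤ) →₀ E) :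
    ev i χ (FF x a P) = ev i χ P ^ p * monY (p := p) (Fin.append (fun j => i (x j)) χ) a := by
  rw [monY_append, ev_pow]
  unfold FF ev
  rw [Finsupp.sum_embDomain, Finsupp.sum_mapRange_index (fun l => by rw [map_zero, zero_mul])]
  unfold Finsupp.sum
  rw [Finset.sum_mul]
  refine Finset.sum_congr rfl fun l _ => ?_
  show i (P l ^ p * monY (p := p) x (e1 a)) * mo χ (sh p (e2 a) l) = _
  rw [map_mul]
  have h1 : mo χ (sh p (e2 a) l) = mo χ (fun j => (p : ℤ) * l j) *
      mo χ (fun j => ((e2 a j : ℕ) : ℤ)) := by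
    rw [← mo_add χ hχ]
    rfl
  rw [h1]
  ring

/-- the coordinates of a Laurent polynomial -/
noncomputable def DD (π : (Fin d → Fin p) → E → E) (h0 : ∀ a, π a 0 = 0)
    (a : Fin (d + m) → Fin p) (P : (Fin m → ℤ) →₀ E) : (Fin m → ℤ) →₀ E :=
  (P.comapDomain (sh p (e2 a)) (sh_inj _).injOn).mapRange (π (e1 a)) (h0 _)

theorem DD_apply (π : (Fin d → Fin p) → E → E) (h0 : ∀ a, π a 0 = 0)
    (a : Fin (d + m) → Fin p) (P : (Fin m → ℤ) →₀ E) (l : Fin m → ℤ) :
    DD π h0 a P l = π (e1 a) (P (sh p (e2 a) l)) := rfl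

variable {x : Fin d → E} {π : (Fin d → Fin p) → E → E}

theorem sum_FF_DD (h : MB p x π) (P : (Fin m → ℤ) →₀ E) :
    ∑ a : Fin (d + m) → Fin p, FF x a (DD π (w1a_zero h) a P) = P := by
  ext n
  obtain ⟨b, l, rfl⟩ := sh_surj (p := p) n
  rw [Finsupp.finsetSum_apply]
  simp only [FF_apply, DD_apply]
  have h1 : ∀ a : Fin (d + m) → Fin p,
      (if e2 a = b then (π (e1 a) (P (sh p (e2 a) l))) ^ p * monY (p := p) x (e1 a) else 0) =
      ∑ c : Fin d → Fin p, if a = Fin.append c b then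
        (π c (P (sh p b l))) ^ p * monY (p := p) x c else 0 := by
    intro a
    by_cases hb : e2 a = b
    · rw [if_pos hb, Finset.sum_eq_single (e1 a)]
      · rw [if_pos, hb]
        apply e12_inj
        · rw [e1_append]
        · rw [e2_append, hb]
      · intro c _ hc
        rw [if_neg]
        rintro rfl
        exact hc (e1_append c b).symm
      · intro hh
        exact absurd (Finset.mem_univ _) hh
    · rw [if_neg hb]
      symm
      refine Finset.sum_eq_zero fun c _ => ?_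
      rw [if_neg]
      rintro rfl
      exact hb (e2_append c b)
  rw [Finset.sum_congr rfl fun a _ => h1 a, Finset.sum_comm]
  simp only [Finset.sum_ite_eq', Finset.mem_univ, if_true]
  exact h.pb.repr _

theorem DD_FF (h : MB p x π) (a b : Fin (d + m) → Fin p) (P : (Fin m → ℤ) →₀ E) :
    DD π (w1a_zero h) b (FF x a P) = if a = b then P else 0 := by
  ext l
  rw [DD_apply, FF_apply]
  by_cases h2 : e2 a = e2 b
  · rw [if_pos h2, w1a_pow h, w1a_mon h]
    by_cases h1 : e1 b = e1 a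
    · have hab : a = b := e12_inj h1.symm h2
      rw [if_pos h1, if_pos hab, mul_one]
    · rw [if_neg h1, if_neg, mul_zero]
      · rfl
      · rintro rfl
        exact h1 rfl
  · rw [if_neg h2, w1a_zero h, if_neg]
    · rfl
    · rintro rfl
      exact h2 rfl

theorem DD_add (h : MB p x π) (b : Fin (d + m) → Fin p) (P Q : (Fin m → ℤ) →₀ E) :
    DD π (w1a_zero h) b (P + Q) = DD π (w1a_zero h) b P + DD π (w1a_zero h) b Q := by
  ext l
  rw [DD_apply, Finsupp.add_apply, Finsupp.add_apply, w1a_add h, DD_apply, DD_apply]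

theorem DD_zero (h : MB p x π) (b : Fin (d + m) → Fin p) :
    DD π (w1a_zero h) b (0 : (Fin m → ℤ) →₀ E) = 0 := by
  ext l
  rw [DD_apply, Finsupp.zero_apply, Finsupp.zero_apply, w1a_zero h]

theorem DD_sum (h : MB p x π) (b : Fin (d + m) → Fin p) {ι : Type} (s : Finset ι)
    (P : ι → (Fin m → ℤ) →₀ E) :
    DD π (w1a_zero h) b (∑ j ∈ s, P j) = ∑ j ∈ s, DD π (w1a_zero h) b (P j) := by
  induction s using Finset.induction_on with
  | empty => simp [DD_zero h]
  | insert a s ha ih => rw [Finset.sum_insert ha, Finset.sum_insert ha, DD_add h, ih]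

/-- The monomials in `x`, `χ` are a `p`-basis of the field of fractions of the Laurent polynomial ring,
and the coordinates of Laurent polynomials are given by `DD`. -/
theorem lau_MB (h : MB p x π) (i : E →+* L) {χ : Fin m → L} (hL : Lau i χ) :
    ∃ π' : (Fin (d + m) → Fin p) → L → L, MB p (Fin.append (fun j => i (x j)) χ) π' ∧
      ∀ a P, π' a (ev i χ P) = ev i χ (DD π (w1a_zero h) a P) := by
  have hp : p ≠ 0 := (Fact.out : p.Prime).ne_zero
  have hrep : ∀ P : (Fin m → ℤ) →₀ E, ev i χ P = ∑ a : Fin (d + m) → Fin p,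
      ev i χ (DD π (w1a_zero h) a P) ^ p *
        monY (p := p) (Fin.append (fun j => i (x j)) χ) a := by
    intro P
    conv_lhs => rw [← sum_FF_DD h P, ev_sum]
    exact Finset.sum_congr rfl fun a _ => ev_FF i x hL.ne a _
  have hne : ∀ j, Fin.append (fun j => i (x j)) χ j ≠ 0 := by
    intro j
    refine Fin.addCases (fun j => ?_) (fun j => ?_) j
    · rw [Fin.append_left]
      exact fun h0 => h.ne j (i.injective (by rw [h0, map_zero]))
    · rw [Fin.append_right]
      exact hL.ne j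
  have hlr : ∀ P : (Fin m → ℤ) →₀ E, ev i χ P ∈ spnR (p := p) (Fin.append (fun j => i (x j)) χ) :=
    fun P => ⟨_, (hrep P).symm⟩
  have hspan : ∀ z : L, z ∈ spn p (Fin.append (fun j => i (x j)) χ) := by
    intro z
    obtain ⟨P, Q, hQ, hz⟩ := hL.frac z
    have h1 : z = (ev i χ Q)⁻¹ ^ p * (ev i χ P * ev i χ Q ^ (p - 1)) := by
      have h2 : ev i χ Q ^ p = ev i χ Q * ev i χ Q ^ (p - 1) := by
        rw [← pow_succ', Nat.sub_add_cancel (Fact.out : p.Prime).one_le]
      rw [← hz, inv_pow, h2]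
      have h3 : ev i χ Q ^ (p - 1) ≠ 0 := pow_ne_zero _ hQ
      field_simp
    rw [h1]
    exact spn_smul _ _ ((spnR (p := p) _).mul_mem (hlr P) ((spnR (p := p) _).pow_mem (hlr Q) _))
  have hind : ∀ c : (Fin (d + m) → Fin p) → L,
      ∑ a, c a ^ p * monY (p := p) (Fin.append (fun j => i (x j)) χ) a = 0 → c = 0 := by
    intro c hc
    choose P Q hQ hPQ using fun a => hL.frac (c a)
    -- a common denominator
    set q : L := ∏ a, ev i χ (Q a) with hq
    have hq0 : q ≠ 0 := Finset.prod_ne_zero_iff.2 fun a _ => hQ a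
    have hR : ∀ a, ∃ R : (Fin m → ℤ) →₀ E, ev i χ R = c a * q := by
      intro a
      have h1 : c a * q = ev i χ (P a) * ∏ b ∈ Finset.univ.erase a, ev i χ (Q b) := by
        rw [hq, ← Finset.mul_prod_erase _ _ (Finset.mem_univ a), ← mul_assoc, hPQ]
      rw [h1, ← mem_lr i χ hL.ne]
      exact (lr i χ hL.ne).mul_mem ⟨_, rfl⟩
        ((lr i χ hL.ne).prod_mem fun b _ => ⟨_, rfl⟩)
    choose R hR using hR
    have h1 : ev i χ (∑ a, FF x a (R a)) = 0 := by
      rw [ev_sum]
      have h2 : ∑ a, ev i χ (FF x a (R a)) =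
          q ^ p * ∑ a, c a ^ p * monY (p := p) (Fin.append (fun j => i (x j)) χ) a := by
        rw [Finset.mul_sum]
        refine Finset.sum_congr rfl fun a _ => ?_
        rw [ev_FF i x hL.ne, hR]
        ring
      rw [h2, hc, mul_zero]
    have h2 := hL.inj _ h1
    funext b
    have h3 : DD π (w1a_zero h) b (∑ a, FF x a (R a)) = R b := by
      rw [DD_sum h]
      simp only [DD_FF h]
      rw [Finset.sum_ite_eq' Finset.univ b]
      simp
    rw [h2, DD_zero h] at h3
    have h4 := hR b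
    rw [← h3, ev_zero] at h4
    exact (mul_eq_zero.1 h4.symm).resolve_right hq0
  obtain ⟨π', hπ'⟩ := mb_of _ hne hspan hind
  refine ⟨π', hπ', fun a P => ?_⟩
  conv_lhs => rw [hrep P]
  rw [hπ'.pb.uniq (fun a => ev i χ (DD π (w1a_zero h) a P)) a]

end

end Pool.Agent.FrF
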