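import Pool.Agent.Lib.MP_305fdd_al.Fr.F.Lau
import Pool.Agent.Lib.MP_305fdd_al.Fr.F.Base

/-!
# MP_305fdd_al, F_r, block FORM: part 4, the step lemma in characteristic 2
-/

set_option autoImplicit false
set_option linter.unusedSectionVars false

namespace Pool.Agent.FrF

open Pool.Agent.F2Ch Pool.Agent.F2RF
open scoped Classical

section
variable {p : ℕ} [Fact p.Prime] {E L : Type} [Field E] [Field L] [CharP E p] [CharP L p]
  {d m : ℕ} {x : Fin d → E} {π : (Fin d → Fin p) → E → E} {i : E →+* L} {χ : Fin m → L}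
  {π' : (Fin (d + m) → Fin p) → L → L}

theorem e1_j0 : e1 (j0 : Fin (d + m) → Fin p) = j0 := rfl

theorem e2_j0 : e2 (j0 : Fin (d + m) → Fin p) = j0 := rfl

theorem sh_j0 (l : Fin m → ℤ) : sh p (j0 : Fin m → Fin p) l = fun j => (p : ℤ) * l j := by
  funext j
  unfold sh j0
  simp

/-- the coordinate at `j0` of a monomial whose exponent is not divisible by `p` -/
theorem pj_not (h : MB p x π)
    (hD : ∀ a P, π' a (ev i χ P) = ev i χ (DD π (w1a_zero h) a P)) (a : E) (l : Fin m → ℤ)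
    (hl : ∀ n : Fin m → ℤ, l ≠ fun j => (p : ℤ) * n j) : π' j0 (i a * mo χ l) = 0 := by
  rw [← ev_single, hD]
  have h1 : DD π (w1a_zero h) j0 (Finsupp.single l a) = 0 := by
    ext n
    rw [DD_apply, e2_j0, sh_j0, Finsupp.single_eq_of_ne (fun h0 => hl n h0.symm), w1a_zero h]
    rfl
  rw [h1, ev_zero]

theorem pj_const (h : MB p x π)
    (hD : ∀ a P, π' a (ev i χ P) = ev i χ (DD π (w1a_zero h) a P)) (a : E) :
    π' j0 (i a) = i (π j0 a) := by
  have h0 : i a = ev i χ (Finsupp.single 0 a) := by rw [ev_single, mo_zero, mul_one]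
  have h0' : i (π j0 a) = ev i χ (Finsupp.single 0 (π j0 a)) := by
    rw [ev_single, mo_zero, mul_one]
  rw [h0, hD, h0']
  congr 1
  ext n
  rw [DD_apply, e1_j0, e2_j0, sh_j0]
  have hp : (p : ℤ) ≠ 0 := by exact_mod_cast (Fact.out : p.Prime).ne_zero
  by_cases hn : n = 0
  · subst hn
    have h2 : (fun j => (p : ℤ) * (0 : Fin m → ℤ) j) = 0 := by
      funext j
      simp
    rw [h2, Finsupp.single_eq_same, Finsupp.single_eq_same]
  · rw [Finsupp.single_eq_of_ne hn, Finsupp.single_eq_of_ne, w1a_zero h]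
    intro h0
    apply hn
    funext j
    have h1 : (p : ℤ) * n j = 0 := congrFun h0 j
    exact (mul_eq_zero.1 h1).resolve_left hp

/-- a ring map of `E` which fixes the `p`-basis commutes with the coordinates -/
theorem pb_comm (h : MB p x π) (w : E →+* E) (hw : ∀ j, w (x j) = x j) (a : Fin d → Fin p)
    (f : E) : π a (w f) = w (π a f) := by
  have h1 : w f = ∑ b, (w (π b f)) ^ p * monY (p := p) x b := by
    conv_lhs => rw [← h.pb.repr f]
    rw [map_sum]
    refine Finset.sum_congr rfl fun b _ => ?_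
    rw [map_mul, map_pow, ← monY_map w x b]
    simp only [hw]
  rw [h1, h.pb.uniq (fun b => w (π b f)) a]

theorem zpow_fsum {L ι : Type} [Field L] {c : L} (hc : c ≠ 0) (s : Finset ι) (g : ι → ℤ) :
    ∏ j ∈ s, c ^ g j = c ^ (∑ j ∈ s, g j) := by
  induction s using Finset.induction_on with
  | empty => simp
  | insert a s ha ih => rw [Finset.prod_insert ha, Finset.sum_insert ha, zpow_add₀ hc, ih]

theorem w_mo (w : L ≃+* L) (hχ : ∀ j, χ j ≠ 0)
    (hw : ∀ j, ∃ (c : E) (l : Fin m → ℤ), w (χ j) = i c * mo χ l) (l : Fin m → ℤ) :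
    ∃ (c : E) (l' : Fin m → ℤ), w (mo χ l) = i c * mo χ l' := by
  choose c n hcn using hw
  refine ⟨∏ j, c j ^ l j, fun k => ∑ j, l j * n j k, ?_⟩
  unfold mo
  rw [map_prod, map_prod]
  have h1 : ∀ j, w (χ j ^ l j) = i (c j ^ l j) * mo χ (n j) ^ l j := by
    intro j
    rw [map_zpow₀, hcn, mul_zpow, map_zpow₀]
  rw [Finset.prod_congr rfl fun j _ => h1 j, Finset.prod_mul_distrib]
  congr 1
  unfold mo
  have h2 : ∀ j, (∏ k, χ k ^ n j k) ^ l j = ∏ k, χ k ^ (l j * n j k) := by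
    intro j
    rw [← Finset.prod_zpow]
    refine Finset.prod_congr rfl fun k _ => ?_
    rw [← zpow_mul, mul_comm]
  rw [Finset.prod_congr rfl fun j _ => h2 j, Finset.prod_comm]
  refine Finset.prod_congr rfl fun k _ => ?_
  exact zpow_fsum (hχ k) _ _

/-- The coordinate at `j0` commutes with the automorphisms which fix `x`, preserve `E` and act
monomially on `χ`. -/
theorem pj_comm (h : MB p x π) (hL : Lau i χ)
    (hM : MB p (Fin.append (fun j => i (x j)) χ) π')
    (hD : ∀ a P, π' a (ev i χ P) = ev i χ (DD π (w1a_zero h) a P))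
    (w : L ≃+* L) (we : E →+* E) (hwe : ∀ a, w (i a) = i (we a)) (hwx : ∀ j, we (x j) = x j)
    (hw : ∀ j, ∃ (c : E) (l : Fin m → ℤ), w (χ j) = i c * mo χ l)
    (hwE' : ∀ a, ∃ b, w.symm (i a) = i b)
    (hw' : ∀ j, ∃ (c : E) (l : Fin m → ℤ), w.symm (χ j) = i c * mo χ l) (z : L) :
    π' j0 (w z) = w (π' j0 z) := by
  have hmono : ∀ (a : E) (l : Fin m → ℤ), π' j0 (w (i a * mo χ l)) = w (π' j0 (i a * mo χ l)) := by
    intro a l
    by_cases ha : a = 0
    · subst ha
      simp only [map_zero, zero_mul]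
      rw [w1a_zero hM, map_zero]
    by_cases hl : ∃ n : Fin m → ℤ, l = fun j => (p : ℤ) * n j
    · obtain ⟨n, rfl⟩ := hl
      rw [← mo_nsmul, mul_comm, w1a_pow hM, map_mul, map_pow, w1a_pow hM, hwe, pj_const h hD,
        pj_const h hD, map_mul, hwe, pb_comm h we hwx]
    · push Not at hl
      rw [pj_not h hD a l hl, map_zero]
      obtain ⟨c, l', hc⟩ := w_mo w hL.ne hw l
      rw [map_mul, hwe, hc, ← mul_assoc, ← map_mul]
      apply pj_not h hD
      rintro n rfl
      -- apply the inverse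
      obtain ⟨c', n', hc'⟩ := w_mo w.symm hL.ne hw' n
      obtain ⟨b, hb⟩ := hwE' (we a * c)
      have h1 : i a * mo χ l = i b * (i c' * mo χ n') ^ p := by
        have h2 : w (i a * mo χ l) = i (we a * c) * mo χ n ^ p := by
          rw [map_mul, hwe, hc, ← mul_assoc, ← map_mul, mo_nsmul]
        have h3 := congrArg w.symm h2
        rw [RingEquiv.symm_apply_apply, map_mul, map_pow, hb, hc'] at h3
        exact h3
      have h2 : ev i χ (Finsupp.single l a) =
          ev i χ (Finsupp.single (fun j => (p : ℤ) * n' j) (b * c' ^ p)) := by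
        rw [ev_single, ev_single, h1, mul_pow, mo_nsmul, map_mul, map_pow]
        ring
      have h3 := hL.inj' h2
      have h4 : Finsupp.single l a l = a := Finsupp.single_eq_same
      rw [h3, Finsupp.single_eq_of_ne (hl n')] at h4
      exact ha h4.symm
  have hev : ∀ P : (Fin m → ℤ) →₀ E, π' j0 (w (ev i χ P)) = w (π' j0 (ev i χ P)) := by
    intro P
    induction P using Finsupp.induction_linear with
    | zero => rw [ev_zero, map_zero, w1a_zero hM, map_zero]
    | add P Q hP hQ => rw [ev_add, map_add, w1a_add hM, w1a_add hM, map_add, hP, hQ]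
    | single l a => rw [ev_single, hmono]
  obtain ⟨P, Q, hQ, hz⟩ := hL.frac z
  obtain ⟨R, hR⟩ : ∃ R, ev i χ R = ev i χ P * ev i χ Q ^ (p - 1) := by
    rw [← mem_lr i χ hL.ne]
    exact (lr i χ hL.ne).mul_mem ⟨_, rfl⟩ ((lr i χ hL.ne).pow_mem ⟨_, rfl⟩ _)
  have h1 : z = (ev i χ Q)⁻¹ ^ p * ev i χ R := by
    have h2 : ev i χ Q ^ p = ev i χ Q * ev i χ Q ^ (p - 1) := by
      rw [← pow_succ', Nat.sub_add_cancel (Fact.out : p.Prime).one_le]
    rw [hR, ← hz, inv_pow, h2]
    have h3 : ev i χ Q ^ (p - 1) ≠ 0 := pow_ne_zero _ hQ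
    field_simp
  rw [h1, map_mul, map_pow, w1a_pow hM, w1a_pow hM, hev, map_mul]

/-- the automorphism `w` of `L` induces a ring map of `E` -/
theorem exists_we (w : L ≃+* L) (hwE : ∀ a, ∃ b, w (i a) = i b) :
    ∃ we : E →+* E, ∀ a, w (i a) = i (we a) := by
  choose g hg using hwE
  refine ⟨{ toFun := g, map_one' := ?_, map_mul' := ?_, map_zero' := ?_, map_add' := ?_ }, hg⟩
  · apply i.injective
    rw [← hg, map_one, map_one]
  · intro a b
    apply i.injective
    rw [← hg, map_mul, map_mul, map_mul, hg, hg]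
  · apply i.injective
    rw [← hg, map_zero, map_zero]
  · intro a b
    apply i.injective
    rw [← hg, map_add, map_add, map_add, hg, hg]

/-- iterates on Laurent polynomials -/
theorem pj_iter (h : MB p x π)
    (hD : ∀ a P, π' a (ev i χ P) = ev i χ (DD π (w1a_zero h) a P)) (e : ℕ)
    (P : (Fin m → ℤ) →₀ E) :
    ∃ R, (π' j0)^[e] (ev i χ P) = ev i χ R ∧ R 0 = (π j0)^[e] (P 0) := by
  induction e with
  | zero => exact ⟨P, rfl, rfl⟩
  | succ e ih =>
    obtain ⟨R, hR, hR0⟩ := ih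
    refine ⟨DD π (w1a_zero h) j0 R, ?_, ?_⟩
    · rw [Function.iterate_succ_apply', hR, hD]
    · rw [Function.iterate_succ_apply', ← hR0, DD_apply, e1_j0, e2_j0, sh_j0]
      have h2 : (fun j => (p : ℤ) * (0 : Fin m → ℤ) j) = 0 := by
        funext j
        simp
      rw [h2]

/-- the constant term is equivariant -/
theorem const_w (hL : Lau i χ) (w : L ≃+* L) (we : E →+* E) (hwe : ∀ a, w (i a) = i (we a))
    (hw : ∀ j, ∃ (c : E) (l : Fin m → ℤ), w (χ j) = i c * mo χ l)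
    (hwE' : ∀ a, ∃ b, w.symm (i a) = i b) (P Q : (Fin m → ℤ) →₀ E)
    (hPQ : w (ev i χ P) = ev i χ Q) : Q 0 = we (P 0) := by
  have key : ∀ P : (Fin m → ℤ) →₀ E, ∃ Q, w (ev i χ P) = ev i χ Q ∧ Q 0 = we (P 0) := by
    intro P
    induction P using Finsupp.induction_linear with
    | zero => exact ⟨0, by rw [ev_zero, map_zero], by simp⟩
    | add P Q hP hQ =>
      obtain ⟨R, hR, hR0⟩ := hP
      obtain ⟨S, hS, hS0⟩ := hQ
      refine ⟨R + S, by rw [ev_add, map_add, hR, hS, ev_add], ?_⟩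
      rw [Finsupp.add_apply, Finsupp.add_apply, map_add, hR0, hS0]
    | single l a =>
      by_cases hl : l = 0
      · subst hl
        refine ⟨Finsupp.single 0 (we a), ?_, by rw [Finsupp.single_eq_same, Finsupp.single_eq_same]⟩
        rw [ev_single, ev_single, mo_zero, mul_one, mul_one, hwe]
      · obtain ⟨c, l', hc⟩ := w_mo w hL.ne hw l
        have hl' : l' ≠ 0 := by
          rintro rfl
          rw [mo_zero, mul_one] at hc
          obtain ⟨b, hb⟩ := hwE' c
          have h1 := congrArg w.symm hc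
          rw [RingEquiv.symm_apply_apply, hb] at h1
          have h2 : ev i χ (Finsupp.single l 1) = ev i χ (Finsupp.single 0 b) := by
            rw [ev_single, ev_single, map_one, one_mul, mo_zero, mul_one, h1]
          have h3 := hL.inj' h2
          have h4 : (Finsupp.single l (1 : E)) l = 1 := Finsupp.single_eq_same
          rw [h3, Finsupp.single_eq_of_ne hl] at h4
          exact zero_ne_one h4
        refine ⟨Finsupp.single l' (we a * c), ?_, ?_⟩
        · rw [ev_single, map_mul, hwe, hc, ev_single, map_mul, mul_assoc]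
        · rw [Finsupp.single_eq_of_ne (Ne.symm hl'), Finsupp.single_eq_of_ne (Ne.symm hl), map_zero]
  obtain ⟨R, hR, hR0⟩ := key P
  rw [hPQ] at hR
  rw [hL.inj' hR, hR0]

end

theorem th_one {p : ℕ} [Fact p.Prime] {L : Type} [Field L] {d : ℕ} {t : Fin d → L}
    {π : (Fin d → Fin p) → L → L} (h : MB p t π) : π j0 1 = 1 := by
  have h1 : (1 : L) = monY (p := p) t j0 := by
    unfold monY j0
    simp
  conv_lhs => rw [h1]
  rw [w1a_mon h, if_pos rfl]

/-- in characteristic 2 the factor between two equivariant Cartier operators is invariant -/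
theorem g_fixed {L : Type} [Field L] [CharP L 2] {d d' : ℕ} {t : Fin d → L} {t' : Fin d' → L}
    {π : (Fin d → Fin 2) → L → L} {π' : (Fin d' → Fin 2) → L → L} (h : MB 2 t π) (_h' : MB 2 t' π')
    (w : L ≃+* L) (hw : ∀ z, π j0 (w z) = w (π j0 z)) (hw' : ∀ z, π' j0 (w z) = w (π' j0 z))
    (g : L) (hg : g ≠ 0) (hgg : ∀ z, π' j0 z = g⁻¹ * π j0 (g * z)) : w g = g := by
  have h0 : w g ≠ 0 := by
    intro h0
    exact hg (w.injective (by rw [h0, map_zero]))
  have h1 : ∀ z, π j0 (w g * z) = w g * (g⁻¹ * π j0 (g * z)) := by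
    intro z
    have h2 := hw' (w.symm z)
    rw [RingEquiv.apply_symm_apply, hgg, hgg, map_mul, map_inv₀, ← hw, map_mul,
      RingEquiv.apply_symm_apply] at h2
    rw [h2, mul_inv_cancel_left₀ h0]
  set r := w g * g⁻¹ with hr
  have h2 : ∀ y, π j0 (r * y) = r * π j0 y := by
    intro y
    have h3 := h1 (g⁻¹ * y)
    rw [mul_inv_cancel_left₀ hg, ← mul_assoc, ← mul_assoc] at h3
    exact h3
  have h3 : ∀ y, π j0 ((r - r ^ 2) * y) = 0 := by
    intro y
    have h4 : r * y = (r - r ^ 2) * y + r ^ 2 * y := by ring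
    have h5 := h2 y
    rw [h4, w1a_add h, w1a_pow h] at h5
    exact left_eq_add.1 (by rw [add_comm]; exact h5.symm)
  have h4 : r - r ^ 2 = 0 := by
    by_contra hne
    have h5 := h3 (r - r ^ 2)⁻¹
    rw [mul_inv_cancel₀ hne, th_one h] at h5
    exact one_ne_zero h5
  have hr0 : r ≠ 0 := mul_ne_zero h0 (inv_ne_zero hg)
  have h5 : r = 1 := by
    have h6 : r * (1 - r) = 0 := by
      rw [← h4]
      ring
    exact (sub_eq_zero.1 ((mul_eq_zero.1 h6).resolve_left hr0)).symm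
  rw [hr] at h5
  exact (mul_inv_eq_one₀ hg).1 h5

theorem iter_map {K L : Type} (i : K → L) (φ : K → K) (ψ : L → L) (h : ∀ z, ψ (i z) = i (φ z))
    (e : ℕ) (z : K) : ψ^[e] (i z) = i (φ^[e] z) := by
  induction e with
  | zero => rfl
  | succ e ih => rw [Function.iterate_succ_apply', Function.iterate_succ_apply', ih, h]

/-- STEP LEMMA (characteristic 2).  `F ⊆ E ⊆ L`, `F ⊆ K ⊆ L`; `L` is the field of fractions of the Laurent
polynomial ring `E[χ, χ⁻¹]`; `W` is a set of automorphisms of `L`, closed under inverses, with fixed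
field `K`, which preserves `E` and acts on `χ` by monomials with coefficients in `E`; `L = K L²`,
`E = F E²`, `E ∩ K = F`.  The elements of `BK` are Laurent polynomials, and for every nonzero
`c` in `BK` some product `b * c` with `b` in `BK` has a nonzero constant term.  Then property `Q` passes from `BF` to `BK`. -/
theorem step {F K E L : Type} [Field F] [Field K] [Field E] [Field L]
    [CharP F 2] [CharP K 2] [CharP E 2] [CharP L 2]
    (iFE : F →+* E) (iE : E →+* L) (iFK : F →+* K) (iK : K →+* L)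
    (hcomm : ∀ a, iE (iFE a) = iK (iFK a)) {m : ℕ} {χ : Fin m → L} (hL : Lau iE χ)
    (W : Set (L ≃+* L)) (hinv : ∀ w ∈ W, w.symm ∈ W)
    (hW1 : ∀ w ∈ W, ∀ z, w (iK z) = iK z)
    (hW2 : ∀ z, (∀ w ∈ W, w z = z) → ∃ y, iK y = z)
    (hWE : ∀ w ∈ W, ∀ a, ∃ b, w (iE a) = iE b)
    (hWχ : ∀ w ∈ W, ∀ j, ∃ (c : E) (l : Fin m → ℤ), w (χ j) = iE c * mo χ l)
    (hEK : ∀ (a : E) (y : K), iE a = iK y → ∃ f, iFE f = a)
    (hspK : ∀ z, z ∈ Subring.closure (Set.range iK ∪ Set.range (fun y : L => y ^ 2)))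
    (hspE : ∀ z, z ∈ Subring.closure (Set.range iFE ∪ Set.range (fun y : E => y ^ 2)))
    (hMB : ∃ (d : ℕ) (x : Fin d → F) (π : (Fin d → Fin 2) → F → F), MB 2 x π)
    (BF : Subring F) (BK : Subring K) (hBF : ∀ b ∈ BF, iFK b ∈ BK)
    (hfracF : ∀ x : F, ∃ a ∈ BF, ∃ b ∈ BF, b ≠ 0 ∧ x * b = a)
    (hfracK : ∀ x : K, ∃ a ∈ BK, ∃ b ∈ BK, b ≠ 0 ∧ x * b = a)
    (hct : ∀ c ∈ BK, c ≠ 0 → ∃ b ∈ BK, ∃ P, ev iE χ P = iK (b * c) ∧ P 0 ≠ 0)
    (hQ : PropQ 2 BF) : PropQ 2 BK := by
  intro φ hφ c hc hc0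
  obtain ⟨dF, x, πF, hF⟩ := hMB
  obtain ⟨dK, tK, πK, gK, hK, hgK, hφK⟩ := hφ
  -- the restrictions of the automorphisms to `E`
  have hweE : ∀ w ∈ W, ∃ we : E ≃+* E, ∀ a, w (iE a) = iE (we a) := by
    intro w hw
    obtain ⟨u, hu⟩ := exists_we w (hWE w hw)
    obtain ⟨v, hv⟩ := exists_we w.symm (hWE w.symm (hinv w hw))
    refine ⟨RingEquiv.ofRingHom u v ?_ ?_, hu⟩
    · ext a
      apply iE.injective
      rw [RingHom.comp_apply, ← hu, ← hv, RingEquiv.apply_symm_apply, RingHom.id_apply]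
    · ext a
      apply iE.injective
      rw [RingHom.comp_apply, ← hv, ← hu, RingEquiv.symm_apply_apply, RingHom.id_apply]
  -- the `2`-basis of `E`
  obtain ⟨πE, hE, hπE⟩ := ext_MB iFE x πF hF {v | ∃ w ∈ W, ∀ a, w (iE a) = iE (v a)}
    (by
      rintro v ⟨w, hw, hv⟩ z
      apply iE.injective
      rw [← hv, hcomm, hW1 w hw])
    (by
      intro z hz
      obtain ⟨y, hy⟩ := hW2 (iE z) (by
        intro w hw
        obtain ⟨v, hv⟩ := hweE w hw
        rw [hv, hz v ⟨w, hw, hv⟩])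
      exact hEK z y hy.symm) hspE
  -- the `2`-basis `(x, χ)` of `L`
  obtain ⟨π', hM, hD⟩ := lau_MB hE iE hL
  -- the `2`-basis `t` of `L`
  obtain ⟨πL, hT, hπL⟩ := ext_MB iK tK πK hK W hW1 hW2 hspK
  -- comparison
  have hlog : LogTy 2 (πL j0) := ⟨dK, _, πL, 1, hT, one_ne_zero, fun f => by simp⟩
  obtain ⟨g, hg, hgg⟩ := w4 2 L (πL j0) hlog _ _ π' hM
  have hwg : ∀ w ∈ W, w g = g := by
    intro w hw
    obtain ⟨v, hv⟩ := hweE w hw
    refine g_fixed hM hT w ?_ ?_ g hg hgg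
    · intro z
      refine pj_comm hE hL hM hD w (v : E →+* E) hv ?_ (hWχ w hw) (hWE _ (hinv w hw))
        (hWχ _ (hinv w hw)) z
      intro j
      apply iE.injective
      show iE (v (iFE (x j))) = _
      rw [← hv, hcomm, hW1 w hw]
    · intro z
      have h1 := pb_comm hT (w : L →+* L) (fun j => hW1 w hw (tK j)) j0 z
      exact h1
  obtain ⟨g0, hg0⟩ := hW2 g hwg
  -- numerator and denominator
  obtain ⟨g1, hg1, g2, hg2, hg20, hg12⟩ := hfracK (g0 * gK)
  have hg00 : g0 ≠ 0 := by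
    rintro rfl
    rw [map_zero] at hg0
    exact hg hg0.symm
  have hg10 : g1 ≠ 0 := by
    rw [← hg12]
    exact mul_ne_zero (mul_ne_zero hg00 hgK) hg20
  obtain ⟨b, hb, P, hP, hP0⟩ := hct (g1 * g2 * c) (BK.mul_mem (BK.mul_mem hg1 hg2) hc)
    (mul_ne_zero (mul_ne_zero hg10 hg20) hc0)
  -- the constant term is in `F`
  obtain ⟨a, ha⟩ : ∃ a, iFE a = P 0 := by
    obtain ⟨y, hy⟩ := hW2 (iE (P 0)) (by
      intro w hw
      obtain ⟨v, hv⟩ := hweE w hw
      have h1 := const_w hL w (v : E →+* E) hv (hWχ w hw) (hWE _ (hinv w hw)) P P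
        (by rw [hP, hW1 w hw])
      rw [hv]
      exact congrArg iE h1.symm)
    exact hEK _ y hy.symm
  have ha0 : a ≠ 0 := by
    rintro rfl
    rw [map_zero] at ha
    exact hP0 ha.symm
  obtain ⟨a1, ha1, a2, ha2, ha20, haa⟩ := hfracF a
  have ha10 : a1 ≠ 0 := by
    rw [← haa]
    exact mul_ne_zero ha0 ha20
  obtain ⟨b', hb', hb'e⟩ := hQ (πF j0) ⟨dF, x, πF, 1, hF, one_ne_zero, fun f => by simp⟩
    (a1 * a2) (BF.mul_mem ha1 ha2) (mul_ne_zero ha10 ha20)
  refine ⟨b * g2 ^ 2 * iFK (b' * a2 ^ 2), BK.mul_mem (BK.mul_mem hb (BK.pow_mem hg2 2))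
    (hBF _ (BF.mul_mem hb' (BF.pow_mem ha2 2))), fun e => ?_⟩
  rw [iter_conj φ (πK j0) gK hgK hφK e]
  refine mul_ne_zero (inv_ne_zero hgK) ?_
  intro h0
  have h1 := iter_map iK (πK j0) (πL j0) (hπL j0) e
    (gK * (b * g2 ^ 2 * iFK (b' * a2 ^ 2) * c))
  rw [h0, map_zero, iter_conj (πL j0) (π' j0) g hg hgg e] at h1
  have h2 : g * iK (gK * (b * g2 ^ 2 * iFK (b' * a2 ^ 2) * c)) =
      ev iE χ (iFE (b' * a2 ^ 2) • P) := by
    rw [ev_smul, hP, hcomm, ← hg0, ← map_mul, ← map_mul]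
    congr 1
    rw [← hg12]
    ring
  rw [h2] at h1
  obtain ⟨R, hR, hR0⟩ := pj_iter hE hD e (iFE (b' * a2 ^ 2) • P)
  rw [hR] at h1
  have h3 : ev iE χ R = 0 := (mul_eq_zero.1 h1).resolve_left (inv_ne_zero hg)
  have h4 := hL.inj R h3
  rw [h4, Finsupp.zero_apply, Finsupp.smul_apply, smul_eq_mul, ← ha, ← map_mul] at hR0
  have h5 : b' * a2 ^ 2 * a = b' * (a1 * a2) := by
    rw [← haa]
    ring
  rw [h5, iter_map iFE (πF j0) (πE j0) (hπE j0) e] at hR0
  have h6 : (πF j0)^[e] (b' * (a1 * a2)) = 0 := by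
    apply iFE.injective
    rw [← hR0, map_zero]
  exact hb'e e h6

end Pool.Agent.FrF
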